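import Mathlib

/-! Character degrees that are `π`-numbers, and the invariants `ρ_π` and `σ_π`. -/

namespace Pool.Agent.Work.MP_d028d5_al

open CategoryTheory

/-- The degrees `χ(1)` of the irreducible complex characters `χ` of `G` whose degree is a
`π`-number. -/
def piDegrees (π : Set ℕ) (G : Type) [Group G] : Set ℕ :=
  {d | (∃ V : FDRep ℂ G, Simple V ∧ Module.finrank ℂ V = d) ∧ ∀ p ∈ d.primeFactors, p ∈ π}

/-- `ρ_π(G)`: the primes dividing some irreducible character degree that is a `π`-number. -/
def rho (π : Set ℕ) (G : Type) [Group G] : Set ℕ :=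
  {p | ∃ d ∈ piDegrees π G, p ∈ d.primeFactors}

/-- The numbers `|π(χ(1))|` for `χ ∈ Irr_π(G)`; its greatest element is `σ_π(G)`. -/
def primeCounts (π : Set ℕ) (G : Type) [Group G] : Set ℕ :=
  {s | ∃ d ∈ piDegrees π G, d.primeFactors.card = s}

end Pool.Agent.Work.MP_d028d5_al
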