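import Pool.Agent.Work.MP_d028d5_al.Defs

-- merged part: Pool.Agent.Work.MP_d028d5_al.HRep
section
/-! Elementary irreducibility, Schur's lemma and the divisibility of the group order by the
degree of an irreducible complex representation. -/

namespace Pool.Agent.Work.MP_d028d5_al

open CategoryTheory Module

/-- A nonzero representation without proper nonzero invariant subspace. -/
def Irr {G M : Type} [Group G] [AddCommGroup M] [Module ℂ M] (ρ : Representation ℂ G M) : Prop :=
  Nontrivial M ∧ ∀ U : Submodule ℂ M, (∀ g, ∀ v ∈ U, ρ g v ∈ U) → U = ⊥ ∨ U = ⊤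

theorem irr_of_simple {G : Type} [Group G] (V : FDRep ℂ G) [Simple V] : Irr V.ρ := by
  constructor
  · by_contra h
    rw [not_nontrivial_iff_subsingleton] at h
    apply id_nonzero V
    ext x
    exact Subsingleton.elim _ _
  · intro U hU
    let W : FDRep ℂ G := FDRep.of (Representation.subrepresentation V.ρ U (fun g v hv => hU g v hv))
    let f : W ⟶ V := ⟨FGModuleCat.ofHom U.subtype, fun g => by ext x; rfl⟩
    have hf : ∀ x : U, f.hom.hom.hom x = (x : V) := fun x => rfl
    have : Mono f := ConcreteCategory.mono_of_injective f Subtype.val_injective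
    by_cases h0 : f = 0
    · left
      rw [eq_bot_iff]
      intro x hx
      have := hf ⟨x, hx⟩
      rw [h0] at this
      exact (Submodule.mem_bot ℂ).2 this.symm
    · right
      have := isIso_of_mono_of_nonzero h0
      rw [eq_top_iff]
      intro x _
      obtain ⟨y, hy⟩ := (ConcreteCategory.bijective_of_isIso f).2 x
      rw [← hy]
      exact y.2

variable {G M : Type} [Group G] [AddCommGroup M] [Module ℂ M] [FiniteDimensional ℂ M]
  {ρ : Representation ℂ G M}

omit [FiniteDimensional ℂ M] in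
theorem Irr.isIrreducible (h : Irr ρ) : ρ.IsIrreducible := by
  have := h.1
  have hb : ((⊥ : Subrepresentation ρ).toSubmodule) = ⊥ := rfl
  have ht : ((⊤ : Subrepresentation ρ).toSubmodule) = ⊤ := rfl
  have : Nontrivial (Subrepresentation ρ) := ⟨⊥, ⊤, fun e => by
    have := congrArg Subrepresentation.toSubmodule e
    rw [hb, ht] at this
    exact bot_ne_top this⟩
  refine ⟨fun U => ?_⟩
  rcases h.2 U.toSubmodule (fun g v hv => U.apply_mem_toSubmodule g hv) with e | e
  · left; exact Subrepresentation.toSubmodule_injective (e.trans hb.symm)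
  · right; exact Subrepresentation.toSubmodule_injective (e.trans ht.symm)

theorem Irr.sum_char [Fintype G] (h : Irr ρ) :
    ∑ g : G, ρ.character g * ρ.character g⁻¹ = Nat.card G := by
  have := h.isIrreducible
  have hc : (Nat.card G : ℂ) ≠ 0 := Nat.cast_ne_zero.2 Nat.card_pos.ne'
  have := invertibleOfNonzero hc
  have := Representation.char_orthonormal ρ ρ
  rw [if_pos ⟨Representation.Equiv.refl ρ⟩] at this
  field_simp at this
  simpa using this

theorem Irr.simple [Finite G] (h : Irr ρ) : Simple (FDRep.of ρ) := by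
  have := Fintype.ofFinite G
  rw [FDRep.simple_iff_char_is_norm_one]
  exact h.sum_char

/-- Schur's lemma. -/
theorem Irr.scalar (h : Irr ρ) (T : M →ₗ[ℂ] M) (hT : ∀ g v, T (ρ g v) = ρ g (T v)) :
    ∃ c : ℂ, ∀ v, T v = c • v := by
  have := h.1
  obtain ⟨c, hc⟩ := Module.End.exists_eigenvalue T
  refine ⟨c, fun v => ?_⟩
  rcases h.2 (Module.End.eigenspace T c) (fun g v hv => by
    rw [Module.End.mem_eigenspace_iff] at hv ⊢
    rw [hT, hv, map_smul]) with e | e
  · exact absurd e (Module.End.hasEigenvalue_iff.1 hc)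
  · exact Module.End.mem_eigenspace_iff.1 (e ▸ Submodule.mem_top)

theorem char_integral [Finite G] (ρ : Representation ℂ G M) (g : G) :
    IsIntegral ℤ (ρ.character g) := by
  unfold Representation.character
  rw [Module.End.trace_eq_sum_roots_charpoly_of_splits (IsAlgClosed.splits _)]
  refine IsIntegral.multiset_sum (fun μ hμ => ?_)
  have h1 : Module.End.HasEigenvalue (ρ g) μ := by
    rw [Module.End.hasEigenvalue_iff_isRoot_charpoly]
    exact (Polynomial.mem_roots (LinearMap.charpoly_monic _).ne_zero).1 hμ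
  obtain ⟨v, hv⟩ := h1.exists_hasEigenvector
  have h2 := hv.pow_apply (Nat.card G)
  rw [← map_pow, pow_card_eq_one', map_one] at h2
  have h3 : μ ^ Nat.card G = 1 := by
    have : (μ ^ Nat.card G - 1) • v = 0 := by
      rw [sub_smul, ← h2, one_smul]; simp
    rcases smul_eq_zero.1 this with h | h
    · exact sub_eq_zero.1 h
    · exact absurd h hv.2
  exact IsIntegral.of_pow Nat.card_pos (h3 ▸ isIntegral_one)

/-- The degree of an irreducible complex representation divides the order of the group. -/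
theorem Irr.finrank_dvd [Finite G] (h : Irr ρ) : finrank ℂ M ∣ Nat.card G := by
  have := Fintype.ofFinite G
  have := h.1
  classical
  set z : M →ₗ[ℂ] M := ∑ g : G, ρ.character g⁻¹ • ρ g with hz
  have hzv : ∀ v, z v = ∑ g : G, ρ.character g⁻¹ • ρ g v := fun v => by
    simp [hz, LinearMap.sum_apply]
  obtain ⟨c, hc⟩ := h.scalar z (fun k v => by
    rw [hzv, hzv, map_sum]
    refine Fintype.sum_equiv (MulAut.conj k⁻¹).toEquiv _ _ (fun g => ?_)
    have e1 : ((MulAut.conj k⁻¹).toEquiv g)⁻¹ = k⁻¹ * g⁻¹ * k⁻¹⁻¹ := by simp [mul_assoc]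
    have e2 : ρ k (ρ ((MulAut.conj k⁻¹).toEquiv g) v) = ρ g (ρ k v) := by
      rw [← Module.End.mul_apply, ← Module.End.mul_apply, ← map_mul, ← map_mul]
      simp [mul_assoc]
    rw [e1, Representation.char_conj, map_smul, e2])
  have hn : (finrank ℂ M : ℂ) ≠ 0 := Nat.cast_ne_zero.2 finrank_pos.ne'
  have htr : c * finrank ℂ M = Nat.card G := by
    have e : z = c • LinearMap.id := LinearMap.ext hc
    have e2 := congrArg (LinearMap.trace ℂ M) e
    rw [map_smul, LinearMap.trace_id, hz, map_sum] at e2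
    rw [← h.sum_char, ← smul_eq_mul, ← e2]
    refine Finset.sum_congr rfl (fun g _ => ?_)
    rw [map_smul, smul_eq_mul, mul_comm]
    rfl
  obtain ⟨v, hv⟩ := exists_ne (0 : M)
  let O := integralClosure ℤ ℂ
  let N : Submodule O M := Submodule.span O (Set.range fun g => ρ g v)
  have hN : N ≠ ⊥ := by
    intro e
    have : ρ 1 v ∈ N := Submodule.subset_span ⟨1, rfl⟩
    rw [e] at this
    simp at this
    exact hv this
  have hint : IsIntegral O c := by
    refine isIntegral_of_smul_mem_submodule N hN (Submodule.fg_span (Set.finite_range _)) c ?_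
    intro n hn
    induction hn using Submodule.span_induction with
    | mem x hx =>
      obtain ⟨k, rfl⟩ := hx
      rw [← hc, hzv]
      refine Submodule.sum_mem _ (fun g _ => ?_)
      have : ρ g (ρ k v) ∈ N := Submodule.subset_span ⟨g * k, by simp⟩
      exact N.smul_mem (⟨ρ.character g⁻¹, char_integral ρ g⁻¹⟩ : O) this
    | zero => simp
    | add x y _ _ hx hy => rw [smul_add]; exact N.add_mem hx hy
    | smul a x _ hx =>
      have : c • a • x = a • c • x := smul_comm c (a : ℂ) x
      rw [this]; exact N.smul_mem a hx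
  have hZ : IsIntegral ℤ c := isIntegral_trans (A := O) c hint
  have hq : c = algebraMap ℚ ℂ ((Nat.card G : ℚ) / (finrank ℂ M : ℚ)) := by
    simp only [map_div₀, map_natCast]
    rw [eq_div_iff hn, htr]
  rw [hq, isIntegral_algebraMap_iff (algebraMap ℚ ℂ).injective,
    IsIntegrallyClosed.isIntegral_iff] at hZ
  obtain ⟨y, hy⟩ := hZ
  have hn' : (finrank ℂ M : ℚ) ≠ 0 := Nat.cast_ne_zero.2 finrank_pos.ne'
  rw [eq_div_iff hn'] at hy
  have : y * (finrank ℂ M : ℤ) = (Nat.card G : ℤ) := by
    have h2 : ((y * (finrank ℂ M : ℤ) : ℤ) : ℚ) = ((Nat.card G : ℤ) : ℚ) := by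
      push_cast; simpa using hy
    exact_mod_cast h2
  exact Int.natCast_dvd_natCast.1 ⟨y, by rw [← this, mul_comm]⟩

end Pool.Agent.Work.MP_d028d5_al
end

-- merged part: Pool.Agent.Work.MP_d028d5_al.HCliff
section
/-! Clifford theory for a semidirect product with an abelian normal factor of exponent two. -/

namespace Pool.Agent.Work.MP_d028d5_al

open Module SemidirectProduct

variable {N H : Type} [CommGroup N] [Group H] (φ : H →* MulAut N)

/-- The action of `H` on complex functions on `N`. -/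
@[reducible] def wAct : MulAction H (N → ℂ) where
  smul h μ := fun n => μ (φ h⁻¹ n)
  one_smul μ := by
    funext n
    change μ (φ 1⁻¹ n) = μ n
    simp
  mul_smul h k μ := by
    funext n
    change μ (φ (h * k)⁻¹ n) = μ (φ k⁻¹ (φ h⁻¹ n))
    simp

/-- The stabiliser in `H` of a function on `N`. -/
def stab (μ : N → ℂ) : Subgroup H where
  carrier := {h | ∀ n, μ (φ h n) = μ n}
  one_mem' := by intro n; simp
  mul_mem' := by
    intro a b ha hb n
    rw [map_mul, MulAut.mul_apply, ha, hb]
  inv_mem' := by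
    intro a ha n
    rw [← ha]
    simp

theorem mem_stab {μ : N → ℂ} {h : H} : h ∈ stab φ μ ↔ ∀ n, μ (φ h n) = μ n := Iff.rfl

/-- The orbit of a function on `N`. -/
def orb (μ : N → ℂ) : Set (N → ℂ) := Set.range fun h : H => fun n => μ (φ h n)

theorem card_orb (μ : N → ℂ) : Nat.card (orb φ μ) = (stab φ μ).index := by
  let := wAct φ
  have e1 : stab φ μ = MulAction.stabilizer H μ := by
    ext h
    rw [← Subgroup.inv_mem_iff, mem_stab, MulAction.mem_stabilizer_iff]
    exact ⟨fun e => funext e, fun e n => congrFun e n⟩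
  have e2 : orb φ μ = MulAction.orbit H μ := by
    ext ν
    constructor
    · rintro ⟨h, rfl⟩
      refine ⟨h⁻¹, ?_⟩
      funext n
      change μ (φ h⁻¹⁻¹ n) = μ (φ h n)
      rw [inv_inv]
    · rintro ⟨h, rfl⟩
      exact ⟨h⁻¹, rfl⟩
  rw [e1, e2, MulAction.index_stabilizer, Nat.card_coe_set_eq]

theorem self_mem_orb (μ : N → ℂ) : μ ∈ orb φ μ := ⟨1, by funext n; simp⟩

theorem mem_orb_step {μ ν : N → ℂ} (hν : ν ∈ orb φ μ) (h : H) :
    (fun n => ν (φ h n)) ∈ orb φ μ := by
  obtain ⟨k, rfl⟩ := hν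
  exact ⟨k * h, by funext n; simp⟩

variable {M : Type} [AddCommGroup M] [Module ℂ M] (ρ : Representation ℂ (N ⋊[φ] H) M)

/-- The weight space of a function on `N`. -/
def wt (μ : N → ℂ) : Submodule ℂ M where
  carrier := {v | ∀ n, ρ (inl n) v = μ n • v}
  zero_mem' := by intro n; simp
  add_mem' := by
    intro a b ha hb n
    rw [map_add, ha, hb, smul_add]
  smul_mem' := by
    intro c a ha n
    rw [map_smul, ha, smul_comm]

theorem mem_wt {μ : N → ℂ} {v : M} : v ∈ wt φ ρ μ ↔ ∀ n, ρ (inl n) v = μ n • v := Iff.rfl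

theorem inr_wt {μ : N → ℂ} {v : M} (hv : v ∈ wt φ ρ μ) (h : H) :
    ρ (inr h) v ∈ wt φ ρ (fun n => μ (φ h⁻¹ n)) := by
  intro n
  have e : (inl n : N ⋊[φ] H) * inr h = inr h * inl (φ h⁻¹ n) := by
    ext <;> simp
  rw [← Module.End.mul_apply, ← map_mul, e, map_mul, Module.End.mul_apply, hv, map_smul]

theorem rho_split (g : N ⋊[φ] H) (v : M) : ρ g v = ρ (inl g.left) (ρ (inr g.right) v) := by
  rw [← Module.End.mul_apply, ← map_mul, inl_left_mul_inr_right]

theorem wt_indep : iSupIndep (wt φ ρ) := by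
  let f : N → Module.End ℂ M := fun n => ρ (inl n)
  have hc : ∀ i j, Commute (f j) (f i) := fun i j =>
    ((Commute.all j i).map (inl : N →* N ⋊[φ] H)).map ρ
  have h := Module.End.independent_iInf_maxGenEigenspace_of_forall_mapsTo f
    (fun i j c => Module.End.mapsTo_maxGenEigenspace_of_comm (hc i j) c)
  refine h.mono (fun μ => ?_)
  refine le_iInf (fun n v hv => ?_)
  rw [Module.End.mem_maxGenEigenspace]
  refine ⟨1, ?_⟩
  have e : f n v = μ n • v := hv n
  simp [e]

theorem finrank_wt [FiniteDimensional ℂ M] {μ ν : N → ℂ} (hν : ν ∈ orb φ μ) :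
    finrank ℂ (wt φ ρ ν) = finrank ℂ (wt φ ρ μ) := by
  have key : ∀ (μ : N → ℂ) (h : H),
      finrank ℂ (wt φ ρ μ) ≤ finrank ℂ (wt φ ρ (fun n => μ (φ h n))) := by
    intro μ h
    let f : wt φ ρ μ →ₗ[ℂ] wt φ ρ (fun n => μ (φ h n)) :=
      (ρ (inr h⁻¹)).restrict (fun v hv => by simpa using inr_wt φ ρ hv h⁻¹)
    refine LinearMap.finrank_le_finrank_of_injective (f := f) (fun a b e => ?_)
    have e' : ρ (inr h⁻¹) (a : M) = ρ (inr h⁻¹) (b : M) := congrArg Subtype.val e
    have := congrArg (ρ (inr h)) e'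
    rw [← Module.End.mul_apply, ← Module.End.mul_apply, ← map_mul, ← map_mul] at this
    exact Subtype.ext (by simpa using this)
  obtain ⟨h, rfl⟩ := hν
  refine le_antisymm ?_ (key μ h)
  have := key (fun n => μ (φ h n)) h⁻¹
  have e : (fun n => μ (φ h (φ h⁻¹ n))) = μ := by
    funext n
    rw [map_inv, MulAut.apply_inv_self]
  rwa [e] at this

theorem exists_weight [Finite N] [Nontrivial M] (h2 : ∀ n : N, n * n = 1) :
    ∃ μ : N → ℂ, ∃ v ∈ wt φ ρ μ, v ≠ 0 := by
  classical
  have := Fintype.ofFinite N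
  have key : ∀ s : Finset N, ∃ v : M, v ≠ 0 ∧ ∀ n ∈ s, ∃ c : ℂ, ρ (inl n) v = c • v := by
    intro s
    induction s using Finset.induction_on with
    | empty => obtain ⟨v, hv⟩ := exists_ne (0 : M); exact ⟨v, hv, by simp⟩
    | insert a s _ ih =>
      obtain ⟨v, hv, hs⟩ := ih
      by_cases e : ρ (inl a) v = v
      · refine ⟨v, hv, fun n hn => ?_⟩
        rcases Finset.mem_insert.1 hn with rfl | hn
        · exact ⟨1, by simpa using e⟩
        · exact hs n hn
      · refine ⟨ρ (inl a) v - v, sub_ne_zero.2 e, fun n hn => ?_⟩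
        rcases Finset.mem_insert.1 hn with rfl | hn
        · refine ⟨-1, ?_⟩
          rw [map_sub, ← Module.End.mul_apply, ← map_mul, ← map_mul, h2]
          simp
        · obtain ⟨c, hc⟩ := hs n hn
          refine ⟨c, ?_⟩
          rw [map_sub, ← Module.End.mul_apply, ← map_mul, ← map_mul, mul_comm n a, map_mul,
            map_mul, Module.End.mul_apply, hc, map_smul, smul_sub]
  obtain ⟨v, hv, hs⟩ := key Finset.univ
  choose μ hμ using fun n => hs n (Finset.mem_univ n)
  exact ⟨μ, v, hμ, hv⟩

theorem iSup_wt (hρ : Irr ρ) {μ : N → ℂ} {v : M} (hv : v ∈ wt φ ρ μ) (h0 : v ≠ 0) :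
    ⨆ ν : orb φ μ, wt φ ρ ν = ⊤ := by
  refine (hρ.2 _ (fun g w hw => ?_)).resolve_left (fun e => h0 ?_)
  · induction hw using Submodule.iSup_induction' with
    | mem ν w hw =>
      rw [rho_split]
      have h1 := inr_wt φ ρ hw g.right
      rw [h1 g.left]
      exact Submodule.smul_mem _ _
        (Submodule.mem_iSup_of_mem ⟨_, mem_orb_step φ ν.2 g.right⁻¹⟩ h1)
    | zero => simp
    | add x y _ _ hx hy => rw [map_add]; exact Submodule.add_mem _ hx hy
  · have : v ∈ ⨆ ν : orb φ μ, wt φ ρ ν := Submodule.mem_iSup_of_mem ⟨μ, self_mem_orb φ μ⟩ hv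
    rw [e] at this
    simpa using this

/-- Clifford's theorem in the form that is needed. -/
theorem clifford [Finite N] [Finite H] [FiniteDimensional ℂ M] (h2 : ∀ n : N, n * n = 1)
    (hρ : Irr ρ) :
    ∃ μ : N → ℂ, μ 1 = 1 ∧ (∀ a b, μ (a * b) = μ a * μ b) ∧ (stab φ μ).index ∣ finrank ℂ M ∧
      ∀ n, (∀ h, μ (φ h n) = 1) → ∀ v, ρ (inl n) v = v := by
  classical
  have := hρ.1
  obtain ⟨μ, v, hv, h0⟩ := exists_weight φ ρ h2
  have htop := iSup_wt φ ρ hρ hv h0
  refine ⟨μ, ?_, fun a b => ?_, ?_, fun n hn w => ?_⟩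
  · have := hv 1
    rw [map_one, map_one] at this
    exact smul_left_injective ℂ h0 (by simpa using this.symm)
  · have := hv (a * b)
    rw [map_mul, map_mul, Module.End.mul_apply, hv b, map_smul, hv a, smul_smul] at this
    exact smul_left_injective ℂ h0 (by simpa [mul_comm] using this.symm)
  · have : Finite (orb φ μ) := Set.finite_range _
    have := Fintype.ofFinite (orb φ μ)
    have hint : DirectSum.IsInternal (fun ν : orb φ μ => wt φ ρ ν) :=
      DirectSum.isInternal_submodule_iff_iSupIndep_and_iSup_eq_top _ |>.2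
        ⟨(wt_indep φ ρ).comp Subtype.val_injective, htop⟩
    have e := (LinearEquiv.ofBijective
      (DirectSum.coeLinearMap (fun ν : orb φ μ => wt φ ρ ν)) hint).finrank_eq
    rw [Module.finrank_directSum, Finset.sum_congr rfl (fun ν _ => finrank_wt φ ρ ν.2)] at e
    rw [← card_orb, ← e, Finset.sum_const, Finset.card_univ, Nat.card_eq_fintype_card,
      smul_eq_mul]
    exact dvd_mul_right _ _
  · have hw : w ∈ ⨆ ν : orb φ μ, wt φ ρ ν := htop ▸ Submodule.mem_top
    induction hw using Submodule.iSup_induction' with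
    | mem ν w hw =>
      obtain ⟨ν, h, rfl⟩ := ν
      rw [hw n]
      simp [hn h]
    | zero => simp
    | add x y _ _ hx hy => rw [map_add, hx, hy]

/-- The monomial representation on the orbit of a linear character. -/
def mono (μ : N → ℂ) (h1 : μ 1 = 1) (hm : ∀ a b, μ (a * b) = μ a * μ b) :
    Representation ℂ (N ⋊[φ] H) (orb φ μ → ℂ) where
  toFun g :=
    { toFun := fun f ν => ν.1 g.left * f ⟨_, mem_orb_step φ ν.2 g.right⟩
      map_add' := by intro f f'; funext ν; simp [mul_add]
      map_smul' := by intro c f; funext ν; simp [mul_left_comm] }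
  map_one' := by
    ext f ⟨ν, h, rfl⟩
    simp [h1]
  map_mul' g g' := by
    refine LinearMap.ext (fun f => ?_)
    funext ⟨ν, h, e⟩
    subst e
    simp [hm, mul_assoc]

theorem mono_irr [Finite H] (μ : N → ℂ) (h1 : μ 1 = 1) (hm : ∀ a b, μ (a * b) = μ a * μ b) :
    Irr (mono φ μ h1 hm) := by
  classical
  have : Finite (orb φ μ) := Set.finite_range _
  have := Fintype.ofFinite (orb φ μ)
  have : Nonempty (orb φ μ) := ⟨⟨μ, self_mem_orb φ μ⟩⟩
  refine ⟨inferInstance, fun U hU => ?_⟩
  have hl : ∀ (n : N) (f : orb φ μ → ℂ) ν, mono φ μ h1 hm (inl n) f ν = ν.1 n * f ν := by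
    intro n f ν
    simp [mono]
  have key : ∀ (k : ℕ) (f : orb φ μ → ℂ) (ν : orb φ μ), f ∈ U → f ν ≠ 0 →
      (Finset.univ.filter fun x => f x ≠ 0).card = k → Pi.single ν 1 ∈ U := by
    intro k
    induction k using Nat.strong_induction_on with
    | _ k ih =>
      intro f ν hf hν hk
      by_cases hs : ∀ x, x ≠ ν → f x = 0
      · have : Pi.single ν 1 = (f ν)⁻¹ • f := by
          funext x
          by_cases e : x = ν
          · subst e; simp [hν]
          · simp [e, hs x e]
        rw [this]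
        exact U.smul_mem _ hf
      · push Not at hs
        obtain ⟨x, hx, hfx⟩ := hs
        obtain ⟨n, hn⟩ : ∃ n, x.1 n ≠ ν.1 n := by
          by_contra e
          push Not at e
          exact hx (Subtype.ext (funext e))
        let f' := mono φ μ h1 hm (inl n) f - x.1 n • f
        have hf' : ∀ y, f' y = (y.1 n - x.1 n) * f y := by
          intro y
          simp only [f', Pi.sub_apply, hl, Pi.smul_apply, smul_eq_mul]
          ring
        refine ih _ ?_ f' ν (U.sub_mem (hU _ _ hf) (U.smul_mem _ hf)) ?_ rfl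
        · rw [← hk]
          refine Finset.card_lt_card ⟨fun y hy => ?_, fun e => ?_⟩
          · simp only [Finset.mem_filter, Finset.mem_univ, true_and, hf'] at hy ⊢
            exact right_ne_zero_of_mul hy
          · have : x ∈ Finset.univ.filter fun x => f x ≠ 0 := by simpa using hfx
            have := e this
            simp [hf'] at this
        · rw [hf']
          exact mul_ne_zero (sub_ne_zero.2 hn.symm) hν
  by_cases h0 : U = ⊥
  · exact Or.inl h0
  right
  obtain ⟨f, hf, hf0⟩ := Submodule.exists_mem_ne_zero_of_ne_bot h0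
  obtain ⟨ν, hν⟩ := Function.ne_iff.1 hf0
  have hs := key _ f ν hf hν rfl
  have hall : ∀ x : orb φ μ, Pi.single x 1 ∈ U := by
    rintro ⟨x, k, rfl⟩
    obtain ⟨ν, h, rfl⟩ := ν
    refine key _ _ _ (hU (inr (k⁻¹ * h)) _ hs) ?_ rfl
    simp [mono, h1]
  rw [eq_top_iff]
  intro g _
  rw [pi_eq_sum_univ' g]
  exact U.sum_mem (fun x _ => U.smul_mem _ (hall x))

theorem finrank_mono [Finite H] (μ : N → ℂ) :
    finrank ℂ (orb φ μ → ℂ) = (stab φ μ).index := by
  have : Finite (orb φ μ) := Set.finite_range _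
  have := Fintype.ofFinite (orb φ μ)
  rw [Module.finrank_fintype_fun_eq_card, ← card_orb, Nat.card_eq_fintype_card]

/-- The index of the trace of a subgroup on a normal subgroup divides the index. -/
theorem index_comap_dvd {X : Type} [Group X] [Finite H] (j : X →* H) [j.range.Normal]
    (S : Subgroup H) : (S.comap j).index ∣ S.index := by
  rw [Subgroup.index_comap]
  set R := j.range
  obtain ⟨c, hc⟩ := Subgroup.relIndex_dvd_index_of_normal R S
  have e1 := Subgroup.relIndex_mul_index (inf_le_right : S ⊓ R ≤ R)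
  have e2 := Subgroup.relIndex_mul_index (inf_le_left : S ⊓ R ≤ S)
  rw [Subgroup.inf_relIndex_right] at e1
  rw [Subgroup.inf_relIndex_left] at e2
  have h0 : R.relIndex S ≠ 0 := Subgroup.FiniteIndex.index_ne_zero
  refine ⟨c, Nat.eq_of_mul_eq_mul_left (Nat.pos_of_ne_zero h0) ?_⟩
  rw [e2, ← e1, hc]
  ring

end Pool.Agent.Work.MP_d028d5_al
end
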