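import Pool.Agent.Work.MP_d028d5_al.HCliff

/-! The group `GL₃(2)` acting on its natural module and on the dual module. -/

namespace Pool.Agent.Work.MP_d028d5_al

open Matrix

abbrev F2 := ZMod 2
abbrev E3 := Fin 3 → F2
abbrev X3 := GL (Fin 3) F2

theorem card_X3 : Nat.card X3 = 168 := by
  rw [Matrix.card_GL_field]
  simp [Fin.prod_univ_three]

/-- The inverse transpose automorphism. -/
def invT : X3 →* X3 where
  toFun x := ⟨(x⁻¹).valᵀ, x.valᵀ, by rw [← transpose_mul, ← Units.val_mul]; simp,
    by rw [← transpose_mul, ← Units.val_mul]; simp⟩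
  map_one' := by ext1; simp
  map_mul' x y := by
    ext1
    simp only [_root_.mul_inv_rev, Units.val_mul, transpose_mul]

theorem invT_val (x : X3) : (invT x).val = (x⁻¹).valᵀ := rfl

theorem invT_invT (x : X3) : invT (invT x) = x := by
  ext1
  rw [invT_val, ← map_inv, invT_val, inv_inv, transpose_transpose]

/-- Identity or inverse transpose. -/
def tw : Bool → X3 →* X3
  | true => MonoidHom.id _
  | false => invT

theorem tw_surj (b : Bool) : Function.Surjective (tw b) := by
  cases b
  · exact fun x => ⟨invT x, invT_invT x⟩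
  · exact fun x => ⟨x, rfl⟩

/-- The natural (`true`) and the dual (`false`) module. -/
def act (b : Bool) : X3 →* (E3 →ₗ[F2] E3) where
  toFun x := Matrix.toLin' (tw b x).val
  map_one' := by simp [Module.End.one_eq_id]
  map_mul' x y := by simp [Module.End.mul_eq_comp, Matrix.toLin'_mul]

theorem act_apply (b : Bool) (x : X3) (e : E3) : act b x e = (tw b x).val *ᵥ e := rfl

theorem count16 : ∀ u w : E3, u ≠ 0 → w ≠ 0 →
    (Finset.univ.filter fun A : Fin 3 → Fin 3 → F2 =>
      (∀ j, u 0 * A 0 j + u 1 * A 1 j + u 2 * A 2 j = u j) ∧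
      (∀ i, A i 0 * w 0 + A i 1 * w 1 + A i 2 * w 2 = w i)).card ≤ 16 := by
  intro u w hu hw
  obtain ⟨a, ha⟩ := Function.ne_iff.1 hu
  obtain ⟨b, hb⟩ := Function.ne_iff.1 hw
  have : Fact (Nat.Prime 2) := ⟨Nat.prime_two⟩
  refine (Finset.card_le_card_of_injOn (t := (Finset.univ : Finset (Fin 2 → Fin 2 → F2)))
    (fun A i j => A (a.succAbove i) (b.succAbove j)) (fun _ _ => Finset.mem_coe.2 (Finset.mem_univ _))
    ?_).trans (by simp)
  intro A hA B hB h
  simp only [Finset.coe_filter, Finset.mem_univ, true_and, Set.mem_ofPred_eq] at hA hB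
  have h0 : ∀ i j, A (a.succAbove i) (b.succAbove j) = B (a.succAbove i) (b.succAbove j) :=
    fun i j => congrFun (congrFun h i) j
  have h1 : ∀ i j, A i (b.succAbove j) = B i (b.succAbove j) := by
    intro i j
    refine Fin.succAboveCases a ?_ (fun i => h0 i j) i
    have e := (hA.1 (b.succAbove j)).trans (hB.1 (b.succAbove j)).symm
    rw [← Fin.sum_univ_three fun k => u k * A k (b.succAbove j),
      ← Fin.sum_univ_three fun k => u k * B k (b.succAbove j), Fin.sum_univ_succAbove _ a,
      Fin.sum_univ_succAbove _ a] at e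
    simp only [h0] at e
    exact mul_left_cancel₀ ha (add_right_cancel e)
  funext i j
  refine Fin.succAboveCases b ?_ (fun j => h1 i j) j
  have e := (hA.2 i).trans (hB.2 i).symm
  rw [← Fin.sum_univ_three fun k => A i k * w k, ← Fin.sum_univ_three fun k => B i k * w k,
    Fin.sum_univ_succAbove _ b, Fin.sum_univ_succAbove _ b] at e
  simp only [h1] at e
  exact mul_right_cancel₀ hb (add_right_cancel e)

theorem lin_eq (L : E3 →ₗ[F2] F2) (e : E3) : L e = (fun j => L (Pi.single j 1)) ⬝ᵥ e := by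
  rw [LinearMap.pi_apply_eq_sum_univ, dotProduct]
  refine Finset.sum_congr rfl (fun j _ => ?_)
  rw [smul_eq_mul, mul_comm]
  congr 2
  funext k
  simp [Pi.single_apply, eq_comm]

theorem card_le_16 (A : Subgroup X3) (L L' : E3 →ₗ[F2] F2) (hL : L ≠ 0) (hL' : L' ≠ 0)
    (h : ∀ x ∈ A, ∀ e, L (act true x e) = L e) (h' : ∀ x ∈ A, ∀ e, L' (act false x e) = L' e) :
    Nat.card A ≤ 16 := by
  set u : E3 := fun j => L (Pi.single j 1) with hu
  set w : E3 := fun j => L' (Pi.single j 1) with hw
  have u0 : u ≠ 0 := fun e => hL (LinearMap.ext fun v => by rw [lin_eq, ← hu, e]; simp)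
  have w0 : w ≠ 0 := fun e => hL' (LinearMap.ext fun v => by rw [lin_eq, ← hw, e]; simp)
  refine le_trans ?_ (count16 u w u0 w0)
  rw [← Nat.card_eq_finsetCard]
  refine Nat.card_le_card_of_injective (fun x => ⟨fun i j => x.1.val i j, ?_⟩) ?_
  · simp only [Finset.mem_filter, Finset.mem_univ, true_and]
    constructor
    · intro j
      have := h x.1 x.2 (Pi.single j 1)
      rw [lin_eq L (act true x.1 _), ← hu, act_apply] at this
      rw [show u j = L (Pi.single j 1) from rfl, ← this]
      simp [tw, dotProduct, Fin.sum_univ_three]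
    · intro i
      have := h' x.1⁻¹ (A.inv_mem x.2) (Pi.single i 1)
      have e : (tw false x.1⁻¹).val = x.1.valᵀ := by
        change (invT _).val = _
        rw [invT_val, inv_inv]
      rw [lin_eq L' (act false x.1⁻¹ _), ← hw, act_apply, e] at this
      rw [show w i = L' (Pi.single i 1) from rfl, ← this]
      simp [dotProduct, Fin.sum_univ_three, mul_comm]
  · intro x y e
    have := congrArg Subtype.val e
    exact Subtype.ext (Units.ext (Matrix.ext fun i j => congrFun (congrFun this i) j))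

/-- The stabiliser of the first coordinate form. -/
def st0 : Subgroup X3 where
  carrier := {x | ∀ e : E3, (x.val *ᵥ e) 0 = e 0}
  one_mem' := by intro e; simp
  mul_mem' := by
    intro a b ha hb e
    rw [Units.val_mul, ← mulVec_mulVec, ha, hb]
  inv_mem' := by
    intro a ha e
    rw [← ha (a⁻¹.val *ᵥ e), mulVec_mulVec, ← Units.val_mul]
    simp

theorem count24 : (Finset.univ.filter fun A : Fin 3 → Fin 3 → F2 =>
      (A 0 0 = 1 ∧ A 0 1 = 0 ∧ A 0 2 = 0) ∧
      A 0 0 * A 1 1 * A 2 2 - A 0 0 * A 1 2 * A 2 1 - A 0 1 * A 1 0 * A 2 2 + A 0 1 * A 1 2 * A 2 0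
        + A 0 2 * A 1 0 * A 2 1 - A 0 2 * A 1 1 * A 2 0 ≠ 0).card = 24 := by
  decide +kernel

theorem card_st0 : Nat.card st0 = 24 := by
  rw [← count24, ← Nat.card_eq_finsetCard]
  refine Nat.card_congr (Equiv.ofBijective (fun x => ⟨fun i j => x.1.val i j, ?_⟩) ⟨?_, ?_⟩)
  · simp only [Finset.mem_filter, Finset.mem_univ, true_and]
    refine ⟨⟨?_, ?_, ?_⟩, ?_⟩
    · simpa using x.2 (Pi.single 0 1)
    · simpa using x.2 (Pi.single 1 1)
    · simpa using x.2 (Pi.single 2 1)
    · rw [← det_fin_three]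
      exact x.1.det_ne_zero
  · intro x y e
    have := congrArg Subtype.val e
    exact Subtype.ext (Units.ext (Matrix.ext fun i j => congrFun (congrFun this i) j))
  · rintro ⟨A, hA⟩
    simp only [Finset.mem_filter, Finset.mem_univ, true_and] at hA
    obtain ⟨⟨h0, h1, h2⟩, hd⟩ := hA
    refine ⟨⟨GeneralLinearGroup.mkOfDetNeZero (Matrix.of A) (by rw [det_fin_three]; exact hd),
      fun e => ?_⟩, rfl⟩
    simp [mulVec, dotProduct, Fin.sum_univ_three, h0, h1, h2]

theorem index_st0 : st0.index = 7 := by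
  have := st0.card_mul_index
  rw [card_st0, card_X3] at this
  omega

theorem index_st (b : Bool) : (st0.comap (tw b)).index = 7 := by
  rw [Subgroup.index_comap_of_surjective _ (tw_surj b), index_st0]

theorem card_ge_24 (A : Subgroup X3) (h2 : ¬ 2 ∣ A.index) (h3 : ¬ 3 ∣ A.index) :
    24 ≤ Nat.card A := by
  have e := A.card_mul_index
  rw [card_X3] at e
  have hc : Nat.Coprime 24 A.index := by
    have a2 := (Nat.Prime.coprime_iff_not_dvd Nat.prime_two).2 h2
    have a3 := (Nat.Prime.coprime_iff_not_dvd Nat.prime_three).2 h3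
    exact Nat.Coprime.mul_left (a2.pow_left 3) a3
  have hd : 24 ∣ Nat.card A := hc.dvd_of_dvd_mul_right (e ▸ by norm_num)
  exact Nat.le_of_dvd Nat.card_pos hd

end Pool.Agent.Work.MP_d028d5_al
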