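import Pool.Agent.Work.MP_d028d5_al.HGL

-- merged part: Pool.Agent.Work.MP_d028d5_al.HGrp
section
/-! The groups `V ⋊ (GL₃(2)^k × ∏ C_(p a))`. -/

namespace Pool.Agent.Work.MP_d028d5_al

open Module SemidirectProduct PiTensorProduct Multiplicative
open scoped TensorProduct

abbrev Ix (k : ℕ) := Fin k → Bool
abbrev Tn (k : ℕ) := ⨂[F2] _ : Fin k, E3

instance (k : ℕ) : Finite (Tn k) := Module.finite_of_finite F2

variable {k : ℕ} (p : Ix k → ℕ)

abbrev Vv := (a : Ix k) → ZMod (p a) → Tn k
abbrev Tt := (a : Ix k) → Multiplicative (ZMod (p a))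
abbrev Hh := (Fin k → X3) × Tt p

/-- The outer tensor product of natural and dual modules of type `a`. -/
noncomputable def tens (a : Ix k) : (Fin k → X3) →* (Tn k →ₗ[F2] Tn k) where
  toFun x := PiTensorProduct.map (fun i => act (a i) (x i))
  map_one' := by
    simp only [Pi.one_apply, map_one]
    exact PiTensorProduct.map_one
  map_mul' x y := by
    simp only [Pi.mul_apply, map_mul]
    exact PiTensorProduct.map_mul _ _

theorem tens_tprod (a : Ix k) (x : Fin k → X3) (f : Fin k → E3) :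
    tens a x (tprod F2 f) = tprod F2 (fun i => act (a i) (x i) (f i)) := by
  simp [tens]

/-- The action of `H` on `V`. -/
noncomputable def mv (h : Hh p) (v : Vv p) : Vv p :=
  fun a s => tens a h.1 (v a (s - (h.2 a).toAdd))

theorem mv_one (v : Vv p) : mv p 1 v = v := by
  funext a s; simp [mv]

theorem mv_mul (h h' : Hh p) (v : Vv p) : mv p (h * h') v = mv p h (mv p h' v) := by
  funext a s; simp [mv, sub_sub]

theorem mv_add (h : Hh p) (v w : Vv p) : mv p h (v + w) = mv p h v + mv p h w := by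
  funext a s; simp [mv]

/-- The action as a homomorphism to the automorphism group. -/
noncomputable def phi : Hh p →* MulAut (Multiplicative (Vv p)) where
  toFun h :=
    { toFun := fun v => ofAdd (mv p h v.toAdd)
      invFun := fun v => ofAdd (mv p h⁻¹ v.toAdd)
      left_inv := fun v => by simp [← mv_mul, mv_one]
      right_inv := fun v => by simp [← mv_mul, mv_one]
      map_mul' := fun v w => by simp [mv_add] }
  map_one' := by ext1 v; simp [mv_one]
  map_mul' h h' := by ext1 v; simp [mv_mul]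

theorem phi_apply (h : Hh p) (v : Multiplicative (Vv p)) (a : Ix k) (s : ZMod (p a)) :
    (phi p h v).toAdd a s = tens a h.1 (v.toAdd a (s - (h.2 a).toAdd)) := rfl

/-- The group. -/
abbrev Gg := Multiplicative (Vv p) ⋊[phi p] Hh p

instance [∀ a, NeZero (p a)] : Finite (Gg p) := Finite.of_equiv _ equivProd.symm

theorem sq_one (n : Multiplicative (Vv p)) : n * n = 1 := by
  apply toAdd.injective
  funext a s
  have : (2 : F2) • n.toAdd a s = 0 := by
    rw [show (2 : F2) = 0 from rfl, zero_smul]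
  simpa [two_smul] using this

/-- The `i`-th factor `GL₃(2)` of `H`. -/
def jj (i : Fin k) : X3 →* Hh p :=
  (MonoidHom.inl _ _).comp (MonoidHom.mulSingle (fun _ : Fin k => X3) i)

theorem jj_apply (i : Fin k) (x : X3) : jj p i x = (Pi.mulSingle i x, 1) := rfl

instance (i : Fin k) : (jj p i).range.Normal := by
  refine ⟨?_⟩
  rintro _ ⟨x, rfl⟩ h
  refine ⟨h.1 i * x * (h.1 i)⁻¹, ?_⟩
  rw [jj_apply, jj_apply]
  refine Prod.ext ?_ (by simp)
  funext j
  by_cases e : j = i
  · subst e; simp
  · simp [e]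

/-- The element of `V` with one nonzero coordinate. -/
def sg (a : Ix k) (s : ZMod (p a)) (u : Tn k) : Multiplicative (Vv p) :=
  ofAdd (Pi.single a (Pi.single s u))

theorem sg_add (a : Ix k) (s : ZMod (p a)) (u w : Tn k) :
    sg p a s (u + w) = sg p a s u * sg p a s w := by
  simp [sg, Pi.single_add]

theorem sg_zero (a : Ix k) (s : ZMod (p a)) : sg p a s 0 = 1 := by
  simp [sg]

theorem phi_sg (x : Fin k → X3) (a : Ix k) (s : ZMod (p a)) (u : Tn k) :
    phi p (x, 1) (sg p a s u) = sg p a s (tens a x u) := by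
  apply toAdd.injective
  funext b t
  rw [phi_apply]
  by_cases e : b = a
  · subst e
    by_cases e' : t = s
    · subst e'; simp [sg]
    · simp [sg, e']
  · simp [sg, e]

theorem exists_form {μ : Multiplicative (Vv p) → ℂ} (h1 : μ 1 = 1)
    (hm : ∀ a b, μ (a * b) = μ a * μ b) {a : Ix k} {s : ZMod (p a)} {u : Tn k}
    (hu : μ (sg p a s u) ≠ 1) (i : Fin k) :
    ∃ L : E3 →ₗ[F2] F2, L ≠ 0 ∧ ∀ x ∈ (stab (phi p) μ).comap (jj p i), ∀ e,
      L (act (a i) x e) = L e := by
  obtain ⟨f, hf⟩ : ∃ f : Fin k → E3, μ (sg p a s (tprod F2 f)) ≠ 1 := by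
    by_contra hc
    push Not at hc
    apply hu
    clear hu
    induction u using PiTensorProduct.induction_on with
    | smul_tprod r f =>
      rcases (by decide : ∀ r : F2, r = 0 ∨ r = 1) r with rfl | rfl
      · rw [zero_smul, sg_zero, h1]
      · rw [one_smul, hc]
    | add x y hx hy => rw [sg_add, hm, hx, hy, one_mul]
  let χ : E3 → ℂ := fun e => μ (sg p a s (tprod F2 (Function.update f i e)))
  have hadd : ∀ e e', χ (e + e') = χ e * χ e' := fun e e' => by
    simp only [χ]
    rw [MultilinearMap.map_update_add, sg_add, hm]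
  have hsq : ∀ e, χ e = 1 ∨ χ e = -1 := fun e => by
    rw [← mul_self_eq_one_iff]
    simp only [χ]
    rw [← hm, sq_one, h1]
  have hne : (-1 : ℂ) ≠ 1 := by norm_num
  let L0 : E3 →+ F2 := AddMonoidHom.mk' (fun e => if χ e = 1 then 0 else 1) (fun e e' => by
    rw [hadd]
    rcases hsq e with h | h <;> rcases hsq e' with h' | h' <;> simp [h, h', hne]
    rfl)
  have hL : ∀ e, AddMonoidHom.toZModLinearMap 2 L0 e = if χ e = 1 then 0 else 1 := fun e => rfl
  refine ⟨AddMonoidHom.toZModLinearMap 2 L0, fun e => ?_, fun x hx e => ?_⟩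
  · have := hL (f i)
    have h2 : χ (f i) ≠ 1 := by simpa [χ] using hf
    rw [e, if_neg h2] at this
    exact zero_ne_one this
  · have : χ (act (a i) x e) = χ e := by
      have h3 := hx (sg p a s (tprod F2 (Function.update f i e)))
      rw [jj_apply, phi_sg, tens_tprod] at h3
      simp only [χ]
      rw [← h3]
      congr 3
      funext j
      by_cases e' : j = i
      · subst e'; simp
      · simp [e']
    rw [hL, hL, this]

theorem one_block [∀ a, NeZero (p a)] {μ : Multiplicative (Vv p) → ℂ} (h1 : μ 1 = 1)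
    (hm : ∀ a b, μ (a * b) = μ a * μ b) (h2 : ¬ 2 ∣ (stab (phi p) μ).index)
    (h3 : ¬ 3 ∣ (stab (phi p) μ).index) :
    ∃ a : Ix k, ∀ n : Multiplicative (Vv p), n.toAdd a = 0 → μ n = 1 := by
  have key : ∀ a b : Ix k, a ≠ b → ∀ s u t w, μ (sg p a s u) ≠ 1 → μ (sg p b t w) ≠ 1 → False := by
    intro a b hab s u t w hu hw
    obtain ⟨i, hi⟩ := Function.ne_iff.1 hab
    obtain ⟨L, hL, hLa⟩ := exists_form p h1 hm hu i
    obtain ⟨L', hL', hLb⟩ := exists_form p h1 hm hw i
    have hd := index_comap_dvd (jj p i) (stab (phi p) μ)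
    have h24 := card_ge_24 _ (fun h => h2 (h.trans hd)) (fun h => h3 (h.trans hd))
    have h16 : Nat.card ((stab (phi p) μ).comap (jj p i)) ≤ 16 := by
      cases ha : a i <;> cases hb : b i <;> rw [ha] at hLa hi <;> rw [hb] at hLb hi
      · exact absurd rfl hi
      · exact card_le_16 _ L' L hL' hL hLb hLa
      · exact card_le_16 _ L L' hL hL' hLa hLb
      · exact absurd rfl hi
    omega
  obtain ⟨a, ha⟩ : ∃ a : Ix k, ∀ b, b ≠ a → ∀ t w, μ (sg p b t w) = 1 := by
    by_cases h : ∃ a s u, μ (sg p a s u) ≠ 1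
    · obtain ⟨a, s, u, hu⟩ := h
      exact ⟨a, fun b hb t w => by_contra fun hw => key a b hb.symm s u t w hu hw⟩
    · push Not at h
      exact ⟨fun _ => true, fun b _ t w => h b t w⟩
  refine ⟨a, fun n hn => ?_⟩
  let K : AddSubmonoid (Vv p) :=
    { carrier := {v | μ (ofAdd v) = 1}
      zero_mem' := h1
      add_mem' := fun {v w} hv hw => by
        change μ (ofAdd v * ofAdd w) = 1
        rw [hm, hv, hw, one_mul] }
  change n.toAdd ∈ K
  rw [← Finset.univ_sum_single n.toAdd]
  refine K.sum_mem (fun b _ => ?_)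
  by_cases e : b = a
  · subst e; rw [hn]; simp
  · rw [← Finset.univ_sum_single (n.toAdd b)]
    have := map_sum (AddMonoidHom.single (fun c : Ix k => ZMod (p c) → Tn k) b)
      (fun t => Pi.single t (n.toAdd b t)) Finset.univ
    simp only [AddMonoidHom.single_apply] at this
    rw [this]
    exact K.sum_mem (fun t _ => ha b e t _)

/-- The subgroup that lives over the block `a`. -/
def Ka (a : Ix k) : Subgroup (Gg p) where
  carrier := {g | ∀ b, b ≠ a → g.left.toAdd b = 0 ∧ g.right.2 b = 1}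
  one_mem' := by intro b _; simp
  mul_mem' := by
    intro g g' hg hg' b hb
    refine ⟨?_, by simp [(hg b hb).2, (hg' b hb).2]⟩
    funext s
    simp [phi_apply, (hg b hb).1, (hg' b hb).1]
  inv_mem' := by
    intro g hg b hb
    refine ⟨?_, by simp [(hg b hb).2]⟩
    funext s
    rw [inv_left, phi_apply]
    simp [(hg b hb).1]

theorem eq_one_of_pow {A : Type} [Group A] [Finite A] {q : ℕ} (hq : q.Prime) {x : A}
    (hx : x ^ q = 1) (hd : ¬ q ∣ Nat.card A) : x = 1 := by
  rcases (Nat.dvd_prime hq).1 (orderOf_dvd_of_pow_eq_one hx) with e | e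
  · exact orderOf_eq_one_iff.1 e
  · exact absurd (e ▸ orderOf_dvd_natCard x) hd

theorem prime_dvd_Ka [∀ a, Fact (p a).Prime] (a : Ix k) {q : ℕ} (hq : q.Prime)
    (hd : q ∣ Nat.card (Ka p a)) : q = 2 ∨ q = 3 ∨ q = 7 ∨ q = p a := by
  by_contra hc
  push Not at hc
  obtain ⟨c2, c3, c7, cp⟩ := hc
  have := Fact.mk hq
  obtain ⟨⟨g, hg⟩, ho⟩ := exists_prime_orderOf_dvd_card' q hd
  rw [← Subgroup.orderOf_coe] at ho
  have hp : g ^ q = 1 := ho ▸ pow_orderOf_eq_one g
  have hr : g.right ^ q = 1 := by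
    have := congrArg rightHom hp
    rwa [map_pow, map_one] at this
  have hr1 : g.right = 1 := by
    refine Prod.ext (funext fun i => ?_) (funext fun b => ?_)
    · refine eq_one_of_pow hq (congrFun (congrArg Prod.fst hr) i) (fun h => ?_)
      rw [card_X3, show 168 = 2 ^ 3 * (3 * 7) by norm_num, hq.dvd_mul, hq.dvd_mul] at h
      rcases h with h | h | h
      · exact c2 ((Nat.prime_dvd_prime_iff_eq hq Nat.prime_two).1 (hq.dvd_of_dvd_pow h))
      · exact c3 ((Nat.prime_dvd_prime_iff_eq hq Nat.prime_three).1 h)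
      · exact c7 ((Nat.prime_dvd_prime_iff_eq hq (by norm_num)).1 h)
    · by_cases e : b = a
      · subst e
        refine eq_one_of_pow hq (congrFun (congrArg Prod.snd hr) b) (fun h => ?_)
        rw [Nat.card_congr toAdd, Nat.card_zmod] at h
        exact cp ((Nat.prime_dvd_prime_iff_eq hq Fact.out).1 h)
      · exact (hg b e).2
  have hg2 : g ^ 2 = 1 := by
    rw [← inl_left_mul_inr_right g, hr1, map_one, mul_one, ← map_pow, pow_two, sq_one, map_one]
  exact c2 ((Nat.prime_dvd_prime_iff_eq hq Nat.prime_two).1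
    (ho ▸ orderOf_dvd_of_pow_eq_one hg2))

theorem irr_Ka {M : Type} [AddCommGroup M] [Module ℂ M] [FiniteDimensional ℂ M]
    {ρ : Representation ℂ (Gg p) M} (hρ : Irr ρ) (a : Ix k)
    (ha : ∀ n : Multiplicative (Vv p), n.toAdd a = 0 → ∀ v, ρ (inl n) v = v) :
    Irr (ρ.comp (Ka p a).subtype) := by
  have hsame : ∀ n n' : Multiplicative (Vv p), n.toAdd a = n'.toAdd a → ∀ v,
      ρ (inl n) v = ρ (inl n') v := by
    intro n n' e v
    have e1 : n = n' * (n'⁻¹ * n) := by simp
    rw [e1, map_mul, map_mul, Module.End.mul_apply, ha (n'⁻¹ * n) (by simp [e])]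
  have hsc : ∀ t : Tt p, t a = 1 → ∃ c : ℂ, ∀ v, ρ (inr (1, t)) v = c • v := by
    intro t ht
    refine hρ.scalar _ (fun g v => ?_)
    have e1 : (inr (1, t) : Gg p) * inl g.left = inl (phi p (1, t) g.left) * inr (1, t) := by
      ext1 <;> simp
    have e2 : ((1, t) : Hh p) * g.right = g.right * (1, t) := Prod.ext (by simp) (mul_comm _ _)
    rw [rho_split (phi p) ρ g, rho_split (phi p) ρ g, ← Module.End.mul_apply, ← map_mul, e1,
      map_mul, Module.End.mul_apply, hsame (phi p (1, t) g.left) g.left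
        (by funext s; simp [phi_apply, ht])]
    congr 1
    rw [← Module.End.mul_apply, ← Module.End.mul_apply, ← map_mul, ← map_mul, ← map_mul,
      ← map_mul, e2]
  refine ⟨hρ.1, fun U hU => hρ.2 U (fun g v hv => ?_)⟩
  have hK : ∀ g ∈ Ka p a, ∀ v ∈ U, ρ g v ∈ U := fun g hg v hv => hU ⟨g, hg⟩ v hv
  rw [rho_split (phi p) ρ g, hsame g.left (ofAdd (Pi.single a (g.left.toAdd a))) (by simp)]
  refine hK _ (fun b hb => by simp [hb]) _ ?_
  have e : g.right = (g.right.1, Pi.mulSingle a (g.right.2 a)) * (1, Function.update g.right.2 a 1) := by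
    refine Prod.ext (by simp) (funext fun b => ?_)
    by_cases e : b = a
    · subst e; simp
    · simp [e]
  obtain ⟨c, hc⟩ := hsc (Function.update g.right.2 a 1) (by simp)
  rw [e, map_mul, map_mul, Module.End.mul_apply, hc]
  exact hK _ (fun b hb => by simp [hb]) _ (U.smul_mem c hv)

/-- An irreducible degree prime to `6` has at most the prime divisors `7` and one `p a`. -/
theorem upper [∀ a, Fact (p a).Prime] {M : Type} [AddCommGroup M] [Module ℂ M]
    [FiniteDimensional ℂ M] {ρ : Representation ℂ (Gg p) M} (hρ : Irr ρ)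
    (h2 : ¬ 2 ∣ finrank ℂ M) (h3 : ¬ 3 ∣ finrank ℂ M) :
    ∃ a : Ix k, ∀ q : ℕ, q.Prime → q ∣ finrank ℂ M → q = 7 ∨ q = p a := by
  obtain ⟨μ, h1, hm, hd, ht⟩ := clifford (phi p) ρ (sq_one p) hρ
  obtain ⟨a, ha⟩ := one_block p h1 hm (fun h => h2 (h.trans hd)) (fun h => h3 (h.trans hd))
  have hK := irr_Ka p hρ a (fun n hn => ht n (fun h => ha _ (by
    funext s; simp [phi_apply, hn])))
  refine ⟨a, fun q hq hqd => ?_⟩
  rcases prime_dvd_Ka p a hq (hqd.trans hK.finrank_dvd) with rfl | rfl | h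
  · exact absurd hqd h2
  · exact absurd hqd h3
  · exact h

/-- The product of the first coordinate forms. -/
noncomputable def Phi (k : ℕ) : Tn k →ₗ[F2] F2 :=
  PiTensorProduct.lift ((MultilinearMap.mkPiAlgebra F2 (Fin k) F2).compLinearMap
    fun _ => LinearMap.proj 0)

theorem Phi_tprod (f : Fin k → E3) : Phi k (tprod F2 f) = ∏ i, f i 0 := by
  simp [Phi]

/-- The linear character attached to the block `a`. -/
noncomputable def lam (a : Ix k) (n : Multiplicative (Vv p)) : ℂ :=
  if Phi k (n.toAdd a 0) = 0 then 1 else -1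

theorem lam_one (a : Ix k) : lam p a 1 = 1 := by simp [lam]

theorem lam_mul (a : Ix k) (n n' : Multiplicative (Vv p)) :
    lam p a (n * n') = lam p a n * lam p a n' := by
  simp only [lam, toAdd_mul, Pi.add_apply, map_add]
  rcases (by decide : ∀ r : F2, r = 0 ∨ r = 1) (Phi k (n.toAdd a 0)) with h | h <;>
    rcases (by decide : ∀ r : F2, r = 0 ∨ r = 1) (Phi k (n'.toAdd a 0)) with h' | h' <;>
    simp [h, h', show (1 : F2) + 1 = 0 from rfl]

theorem lam_eq_iff (a : Ix k) (n n' : Multiplicative (Vv p)) :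
    lam p a n = lam p a n' ↔ Phi k (n.toAdd a 0) = Phi k (n'.toAdd a 0) := by
  simp only [lam]
  rcases (by decide : ∀ r : F2, r = 0 ∨ r = 1) (Phi k (n.toAdd a 0)) with h | h <;>
    rcases (by decide : ∀ r : F2, r = 0 ∨ r = 1) (Phi k (n'.toAdd a 0)) with h' | h' <;>
    norm_num [h, h']

theorem stab_lam (a : Ix k) : stab (phi p) (lam p a) =
    (Subgroup.pi Set.univ fun i => st0.comap (tw (a i))).prod (Pi.evalMonoidHom _ a).ker := by
  ext ⟨x, t⟩
  simp only [mem_stab, lam_eq_iff, phi_apply, Subgroup.mem_prod, Subgroup.mem_pi, Set.mem_univ,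
    forall_true_left, Subgroup.mem_comap, MonoidHom.mem_ker, Pi.evalMonoidHom_apply]
  let e0 : Fin k → E3 := fun _ => Pi.single 0 1
  constructor
  · intro h
    have ht : t a = 1 := by
      by_contra hc
      have hc' : (0 : ZMod (p a)) - (t a).toAdd ≠ 0 := by simpa using hc
      have := h (sg p a 0 (tprod F2 e0))
      simp only [sg, toAdd_ofAdd, Pi.single_eq_same, Pi.single_eq_of_ne hc', map_zero,
        Phi_tprod] at this
      simp [e0] at this
    refine ⟨fun i e => ?_, ht⟩
    have h' : ∀ f : Fin k → E3, ∏ j, act (a j) (x j) (f j) 0 = ∏ j, f j 0 := by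
      intro f
      have := h (sg p a 0 (tprod F2 f))
      simpa [sg, ht, tens_tprod, Phi_tprod] using this
    have h0 : ∀ j, act (a j) (x j) (e0 j) 0 = 1 := by
      intro j
      have := h' e0
      rcases (by decide : ∀ r : F2, r = 0 ∨ r = 1) (act (a j) (x j) (e0 j) 0) with h1 | h1
      · rw [Finset.prod_eq_zero (Finset.mem_univ j) h1] at this
        simp [e0] at this
      · exact h1
    have := h' (Function.update e0 i e)
    rw [Finset.prod_eq_single i, Finset.prod_eq_single i] at this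
    · simpa [act_apply] using this
    · intro j _ hj; simp [hj, e0]
    · simp
    · intro j _ hj; simp [hj, h0]
    · simp
  · rintro ⟨hx, ht⟩ n
    have : (Phi k).comp (tens a x) = Phi k := by
      refine PiTensorProduct.ext (MultilinearMap.ext fun f => ?_)
      simp only [LinearMap.compMultilinearMap_apply, LinearMap.comp_apply, tens_tprod, Phi_tprod]
      exact Finset.prod_congr rfl (fun i _ => hx i (f i))
    rw [ht, toAdd_one, sub_zero, ← LinearMap.comp_apply, this]

theorem index_lam (a : Ix k) : (stab (phi p) (lam p a)).index = 7 ^ k * p a := by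
  rw [stab_lam, Subgroup.index_prod, Subgroup.index_pi, Subgroup.index_ker,
    MonoidHom.range_eq_top.2 (Function.surjective_eval a)]
  simp [index_st, Nat.card_congr toAdd]

/-- There is an irreducible degree `7 ^ k * p a`. -/
theorem lower [∀ a, NeZero (p a)] (a : Ix k) :
    ∃ V : FDRep ℂ (Gg p), CategoryTheory.Simple V ∧ finrank ℂ V = 7 ^ k * p a := by
  have : Finite (orb (phi p) (lam p a)) := Set.finite_range _
  exact ⟨FDRep.of (mono (phi p) (lam p a) (lam_one p a) (lam_mul p a)),
    (mono_irr _ _ _ _).simple, (finrank_mono (phi p) _).trans (index_lam p a)⟩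

end Pool.Agent.Work.MP_d028d5_al
end

-- merged part: Pool.Agent.Work.MP_d028d5_al.HMain
section
/-! Finite groups with `σ_π = 2` and arbitrarily large `ρ_π`. -/

namespace Pool.Agent.Work.MP_d028d5_al

open Module

theorem unbounded (π : Set ℕ) (hπ : ∀ q ∈ π, q.Prime) (hinf : π.Infinite) (h7 : 7 ∈ π)
    (h2 : 2 ∉ π) (h3 : 3 ∉ π) (m : ℕ) :
    ∃ (G : Type) (_ : Group G), Finite G ∧ IsGreatest (primeCounts π G) 2 ∧ (rho π G).Finite ∧
      m ≤ (rho π G).ncard := by
  classical
  have hinf' : (π \ {7}).Infinite := hinf.sdiff (Set.finite_singleton 7)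
  let p : Ix (m + 1) → ℕ := fun a => (hinf'.natEmbedding _ (Fintype.equivFin _ a) : ℕ)
  have hpi : Function.Injective p := fun a b e =>
    (Fintype.equivFin _).injective (Fin.ext ((hinf'.natEmbedding _).injective (Subtype.ext e)))
  have hp : ∀ a, p a ∈ π ∧ p a ≠ 7 := fun a => (hinf'.natEmbedding _ _).2
  have : ∀ a, Fact (p a).Prime := fun a => ⟨hπ _ (hp a).1⟩
  have h7p : Nat.Prime 7 := by norm_num
  have hup : ∀ d ∈ piDegrees π (Gg p), ∃ a, d.primeFactors ⊆ {7, p a} := by
    rintro d ⟨⟨V, hV, rfl⟩, hd⟩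
    have hI := irr_of_simple V
    have := hI.1
    have h0 : finrank ℂ V ≠ 0 := finrank_pos.ne'
    obtain ⟨a, ha⟩ := upper p hI
      (fun h => h2 (hd 2 (Nat.mem_primeFactors.2 ⟨Nat.prime_two, h, h0⟩)))
      (fun h => h3 (hd 3 (Nat.mem_primeFactors.2 ⟨Nat.prime_three, h, h0⟩)))
    refine ⟨a, fun q hq => ?_⟩
    obtain ⟨hq1, hq2, -⟩ := Nat.mem_primeFactors.1 hq
    simpa using ha q hq1 hq2
  have hpf : ∀ a, (7 ^ (m + 1) * p a).primeFactors = {7, p a} := fun a => by
    rw [Nat.primeFactors_mul (by positivity) (hπ _ (hp a).1).ne_zero,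
      Nat.primeFactors_prime_pow (by omega) h7p, (hπ _ (hp a).1).primeFactors]
    rfl
  have hlow : ∀ a, 7 ^ (m + 1) * p a ∈ piDegrees π (Gg p) := fun a =>
    ⟨lower p a, fun q hq => by
      rw [hpf] at hq
      rcases Finset.mem_insert.1 hq with rfl | hq
      · exact h7
      · exact Finset.mem_singleton.1 hq ▸ (hp a).1⟩
  have hfin : (rho π (Gg p)).Finite := by
    refine ((Set.finite_range p).insert 7).subset ?_
    rintro q ⟨d, hd, hq⟩
    obtain ⟨a, ha⟩ := hup d hd
    rcases Finset.mem_insert.1 (ha hq) with rfl | hq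
    · exact Or.inl rfl
    · exact Or.inr ⟨a, (Finset.mem_singleton.1 hq).symm⟩
  refine ⟨Gg p, inferInstance, inferInstance, ⟨⟨_, hlow (fun _ => true), ?_⟩, ?_⟩, hfin, ?_⟩
  · rw [hpf, Finset.card_pair (hp _).2.symm]
  · rintro s ⟨d, hd, rfl⟩
    obtain ⟨a, ha⟩ := hup d hd
    exact (Finset.card_le_card ha).trans Finset.card_le_two
  · have hsub : Set.range p ⊆ rho π (Gg p) := by
      rintro _ ⟨a, rfl⟩
      exact ⟨_, hlow a, by rw [hpf]; simp⟩
    refine le_trans ?_ (Set.ncard_le_ncard hsub hfin)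
    rw [← Set.image_univ, Set.ncard_image_of_injective _ hpi, Set.ncard_univ]
    simp only [Nat.card_eq_fintype_card, Fintype.card_pi, Fintype.card_bool, Finset.prod_const,
      Finset.card_univ, Fintype.card_fin]
    exact (Nat.le_succ m).trans Nat.lt_two_pow_self.le

end Pool.Agent.Work.MP_d028d5_al
end
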