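import Pool.Agent.Lib.ANT.PNT
import Pool.Agent.Lib.ANT.Mertens
import Pool.Agent.Lib.SymRep.Hooks
import Pool.Agent.Work.MP_d028d5_al.Defs

-- merged part: Pool.Agent.Work.MP_d028d5_al.Choose
section
-- merged part: Pool.Agent.Work.MP_d028d5_al.Arith
section
/-! Arithmetic and combinatorial lemmas. -/

namespace Pool.Agent.Work.MP_d028d5_al

open Finset Filter Topology
open scoped Chebyshev

theorem eventually_prime {a b : ℝ} (ha : 0 < a) (hab : a < b) :
    ∀ᶠ n : ℕ in atTop, ∃ p : ℕ, p.Prime ∧ a * n < p ∧ (p : ℝ) ≤ b * n := by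
  have key : ∀ c : ℝ, 0 < c → Tendsto (fun n : ℕ => θ (c * n) / n) atTop (𝓝 c) := by
    intro c hc
    have h1 : Tendsto (fun n : ℕ => c * (n : ℝ)) atTop atTop :=
      tendsto_natCast_atTop_atTop.const_mul_atTop hc
    have h2 := (Pool.Agent.Lib.ANT.tendsto_theta_div.comp h1).const_mul c
    rw [mul_one] at h2
    refine h2.congr fun n => ?_
    simp only [Function.comp_apply]
    rcases eq_or_ne (n : ℝ) 0 with h | h
    · simp [h]
    · field_simp
  have h3 := (key a ha).eventually_lt (key b (ha.trans hab)) hab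
  filter_upwards [h3] with n hn
  by_contra hcon
  push Not at hcon
  have : θ (b * n) ≤ θ (a * n) := by
    unfold Chebyshev.theta
    refine Finset.sum_le_sum_of_subset_of_nonneg ?_ fun p _ _ => Real.log_natCast_nonneg p
    intro p hp
    simp only [mem_filter, mem_Ioc] at hp ⊢
    refine ⟨⟨hp.1.1, ?_⟩, hp.2⟩
    have hb : (0 : ℝ) ≤ b * n := by have := ha.trans hab; positivity
    have h4 : (p : ℝ) ≤ b * n := (Nat.le_floor_iff hb).1 hp.1.2
    apply Nat.le_floor
    by_contra h5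
    exact absurd (hcon p hp.2 (not_le.1 h5)) (not_lt.2 h4)
  exact absurd hn (not_lt.2 (div_le_div_of_nonneg_right this (Nat.cast_nonneg n)))

theorem card_mul_le_sum (C : Finset ℕ) : C.card * (C.card + 1) ≤ 2 * ∑ c ∈ C, c + 2 * C.card := by
  rw [← Pool.Agent.Lib.SymRep.two_mul_sum_card_ge, ← mul_add]
  refine Nat.mul_le_mul_left 2 ?_
  have h1 : ∑ x ∈ C, (C.filter (x ≤ ·)).card = ∑ x ∈ C, (C.filter (· ≤ x)).card := by
    simp only [card_filter]
    exact Finset.sum_comm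
  rw [h1, card_eq_sum_ones C, ← Finset.sum_add_distrib]
  refine Finset.sum_le_sum fun x _ => ?_
  rw [← card_range (x + 1)]
  exact card_le_card fun z hz => mem_range.2 (Nat.lt_succ_of_le (mem_filter.1 hz).2)

theorem lt_two_mul {C : Finset ℕ} {k : ℕ} (hk : C.card = k) (hs : 2 * ∑ c ∈ C, c = k * (k + 1))
    {c : ℕ} (hc : c ∈ C) : c < 2 * k := by
  have h1 := card_mul_le_sum (C.erase c)
  have h2 := Finset.add_sum_erase C (fun c => c) hc
  have h3 := card_erase_add_one hc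
  rw [hk] at h3
  subst h3
  linarith only [h1, h2, hs]

/-- the admissible set: a light initial segment and `r` heavy odd numbers -/
def Gam (r : ℕ) : Finset ℕ := range (8 * r) ∪ (range r).image fun j => 16 * r - 2 * j - 1

theorem mem_Gam {r c : ℕ} : c ∈ Gam r ↔ c < 8 * r ∨ ∃ j < r, 16 * r - 2 * j - 1 = c := by
  simp [Gam]

theorem card_Gam (r : ℕ) : (Gam r).card ≤ 9 * r := by
  refine (card_union_le _ _).trans ?_
  have := card_image_le (s := range r) (f := fun j => 16 * r - 2 * j - 1)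
  simp only [card_range] at this ⊢
  omega

theorem heavy_le_one {C : Finset ℕ} {k r : ℕ} (hk : C.card = k)
    (hs : 2 * ∑ c ∈ C, c = k * (k + 1)) (hC : C ⊆ Gam r) :
    (C.filter (8 * r ≤ ·)).card ≤ 1 := by
  by_contra hcon
  set C₂ := C.filter (8 * r ≤ ·) with hC₂
  set C₁ := C.filter (fun c => ¬ 8 * r ≤ c) with hC₁
  have h1 : C₂.card + C₁.card = k := by
    rw [← hk]; exact Finset.card_filter_add_card_filter_not _
  have h2 : ∑ c ∈ C₂, c + ∑ c ∈ C₁, c = ∑ c ∈ C, c := Finset.sum_filter_add_sum_filter_not _ _ _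
  have h3 : C₁.card ≤ 8 * r := by
    rw [← card_range (8 * r)]
    exact card_le_card fun c hc => mem_range.2 (not_le.1 (mem_filter.1 hc).2)
  have h4 : C₂.card ≤ r := by
    refine le_trans (card_le_card (t := (range r).image fun j => 16 * r - 2 * j - 1) ?_) ?_
    · intro c hc
      rw [mem_filter] at hc
      rcases mem_union.1 (hC hc.1) with h | h
      · exact absurd (mem_range.1 h) (not_lt.2 hc.2)
      · exact h
    · simpa using card_image_le (s := range r) (f := fun j => 16 * r - 2 * j - 1)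
  have h5 : C₂.card * (14 * r + 1) ≤ ∑ c ∈ C₂, c := by
    rw [← smul_eq_mul]
    refine Finset.card_nsmul_le_sum _ _ _ fun c hc => ?_
    rw [mem_filter] at hc
    rcases mem_Gam.1 (hC hc.1) with h | ⟨j, hj, h⟩ <;> omega
  have h6 := card_mul_le_sum C₁
  generalize C₂.card = j at *
  generalize C₁.card = i at *
  subst h1
  have h7 : 2 ≤ j := by omega
  linarith only [h2, hcon, h4, h5, h3, h6, hs, h7, Nat.mul_le_mul_left j h3, Nat.mul_le_mul_left j h4, Nat.mul_le_mul_left r h7]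

theorem log_le_of_sq_lt {N p : ℕ} (hN : 0 < N) (h : 4 * N ^ 2 < p) :
    (N : ℝ) * Real.log p ≤ p - 1 := by
  have hp : (4 * (N : ℝ) ^ 2) < p := by exact_mod_cast h
  have hN' : (1 : ℝ) ≤ N := by exact_mod_cast hN
  have hp0 : (0 : ℝ) < p := by nlinarith only [hp]
  set s := Real.sqrt p with hs
  have hs2 : s * s = p := Real.mul_self_sqrt hp0.le
  have hs0 : 0 < s := Real.sqrt_pos.2 hp0
  have hsN : 2 * (N : ℝ) < s := by
    by_contra h1
    linarith only [hp, hs2, h1, hs0, mul_nonneg_of_nonpos_of_nonpos (Mathlib.Tactic.Linarith.sub_nonpos_of_le (Mathlib.Tactic.Linarith.natCast_nonneg ℝ N)) (Mathlib.Tactic.Linarith.sub_nonpos_of_le (le_of_not_gt h1)), mul_nonneg_of_nonpos_of_nonpos (le_of_lt (Mathlib.Tactic.Linarith.sub_neg_of_lt hs0)) (Mathlib.Tactic.Linarith.sub_nonpos_of_le (le_of_not_gt h1))]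
  have h1 : Real.log p = 2 * Real.log s := by
    rw [← hs2, Real.log_mul hs0.ne' hs0.ne']; ring
  have h2 := Real.log_le_sub_one_of_pos hs0
  rw [h1]
  clear * - N s p hN' hs2 h2 hs0 hsN
  linarith only [hN', hs2, h2, hs0, hsN, mul_nonneg_of_nonpos_of_nonpos (Mathlib.Tactic.Linarith.sub_nonpos_of_le (Mathlib.Tactic.Linarith.natCast_nonneg ℝ N)) (Mathlib.Tactic.Linarith.sub_nonpos_of_le h2), mul_pos_of_neg_of_neg (Mathlib.Tactic.Linarith.sub_neg_of_lt hs0) (Mathlib.Tactic.Linarith.sub_neg_of_lt hsN)]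

/-- the size argument: a degree close to a row with few prime divisors is very close to a row -/
theorem size_bound {n k d H Y N : ℕ} {C : Finset ℕ} (hk : C.card = k) (hC : ∀ c ∈ C, c < 2 * k)
    (hH : H ≤ k ^ k) (hd : d * H = ∏ c ∈ C, (n - c)) (hN : 0 < N)
    (hcard : d.primeFactors.card ≤ N) (hp : ∀ p ∈ d.primeFactors, p ≤ Y ∨ 4 * N ^ 2 < p)
    (hkn : 2 * Real.exp (2 * (Y ^ 2 + 1) + 1) * k ≤ n)
    (hn : 4 * (2 * ((Y : ℝ) ^ 2 + 1) + 1) + 8 * N ≤ Real.log n) : k ≤ 2 * N := by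
  by_contra hcon
  push Not at hcon
  set a : ℝ := 2 * ((Y : ℝ) ^ 2 + 1) with ha
  have ha2 : 2 ≤ a := by clear * - a Y ha; rw [ha]; linarith only [sq_nonneg (Y : ℝ), sq_nonneg ↑Y]
  have hk0 : (0 : ℝ) < k := by exact_mod_cast (by omega : 0 < k)
  have hN' : (1 : ℝ) ≤ N := by exact_mod_cast hN
  have hexp : 2 ≤ Real.exp (a + 1) := by have := Real.add_one_le_exp (a + 1); linarith only [ha2, this]
  have h4k : 4 * k ≤ n := by
    clear * - k n a hkn hexp
    have : (4 : ℝ) * k ≤ n := by linarith only [hkn, hexp, mul_nonneg_of_nonpos_of_nonpos (Mathlib.Tactic.Linarith.sub_nonpos_of_le (Mathlib.Tactic.Linarith.natCast_nonneg ℝ k)) (Mathlib.Tactic.Linarith.sub_nonpos_of_le hexp)]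
    exact_mod_cast this
  have hn0 : 0 < n := by omega
  have hn0' : (0 : ℝ) < n := by exact_mod_cast hn0
  have hprodpos : 0 < ∏ c ∈ C, (n - c) :=
    Finset.prod_pos fun c hc => by have := hC c hc; omega
  have hd0 : d ≠ 0 := by
    rintro rfl
    rw [zero_mul] at hd
    omega
  have hH0 : 0 < H := by
    rcases Nat.eq_zero_or_pos H with h | h
    · rw [h, mul_zero] at hd; omega
    · exact h
  -- upper bound
  have hdvd : d ∣ (2 * k).factorial * n.choose (2 * k) := by
    rw [← Nat.descFactorial_eq_factorial_mul_choose, Nat.descFactorial_eq_prod_range]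
    exact (Dvd.intro _ hd).trans
      (Finset.prod_dvd_prod_of_subset _ _ _ fun c hc => mem_range.2 (hC c hc))
  have hch : n.choose (2 * k) ≠ 0 := (Nat.choose_pos (by omega)).ne'
  have hup : Real.log d ≤ N * Real.log n + a * k := by
    clear * - n d N a k Y hd0 hch hdvd hn0 hk0 hN hp hN' hcard ha
    have hL : 0 ≤ Real.log n := Real.log_natCast_nonneg n
    rw [Real.log_nat_eq_sum_factorization, Finsupp.sum, Nat.support_factorization]
    have hterm : ∀ p ∈ d.primeFactors, (d.factorization p : ℝ) * Real.log p ≤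
        Real.log n + (2 * k / N + if p ≤ Y then (2 * k * Y : ℝ) else 0) := by
      intro p hpd
      have hpp := Nat.prime_of_mem_primeFactors hpd
      have h1 : d.factorization p ≤
          (2 * k).factorial.factorization p + (n.choose (2 * k)).factorization p := by
        have := (Nat.factorization_le_iff_dvd hd0
          (mul_ne_zero (Nat.factorial_ne_zero _) hch)).2 hdvd p
        rwa [Nat.factorization_mul (Nat.factorial_ne_zero _) hch, Finsupp.add_apply] at this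
      have hlp : 0 ≤ Real.log p := Real.log_natCast_nonneg p
      have h2 : ((n.choose (2 * k)).factorization p : ℝ) * Real.log p ≤ Real.log n := by
        rw [← Real.log_pow]
        refine Real.log_le_log (pow_pos (by exact_mod_cast hpp.pos) _) ?_
        exact_mod_cast Nat.pow_factorization_choose_le hn0
      have h3 : (2 * k).factorial.factorization p * (p - 1) ≤ 2 * k :=
        (Nat.mul_le_mul_right _ (Nat.factorization_factorial_le_div_pred hpp _)).trans
          (Nat.div_mul_le_self _ _)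
      have h3' : ((2 * k).factorial.factorization p : ℝ) * (p - 1) ≤ 2 * k := by
        have : (((2 * k).factorial.factorization p * (p - 1) : ℕ) : ℝ) ≤ ((2 * k : ℕ) : ℝ) := by
          exact_mod_cast h3
        rwa [Nat.cast_mul, Nat.cast_sub hpp.one_le, Nat.cast_mul, Nat.cast_one,
          Nat.cast_ofNat] at this
      have hp2 : (2 : ℝ) ≤ p := by exact_mod_cast hpp.two_le
      set v : ℝ := ((2 * k).factorial.factorization p : ℝ) with hv
      have hv0 : 0 ≤ v := Nat.cast_nonneg _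
      have h4 : v * Real.log p ≤ 2 * k / N + if p ≤ Y then (2 * k * Y : ℝ) else 0 := by
        have hdiv : (0 : ℝ) ≤ 2 * k / N := by positivity
        split_ifs with hY
        · have h5 : Real.log p ≤ Y := by
            have := Real.log_le_sub_one_of_pos (x := p) (by linarith only [hp2])
            have : (p : ℝ) ≤ Y := by exact_mod_cast hY
            linarith
          have h6 : v ≤ 2 * k := by linarith only [h3', hp2, mul_nonneg_of_nonpos_of_nonpos (Mathlib.Tactic.Linarith.sub_nonpos_of_le (Mathlib.Tactic.Linarith.natCast_nonneg ℝ (((2 : ℕ) * k).factorial.factorization p))) (Mathlib.Tactic.Linarith.sub_nonpos_of_le hp2)]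
          have : v * Real.log p ≤ 2 * k * Y := mul_le_mul h6 h5 hlp (by linarith only [hk0])
          linarith only [hdiv, this]
        · have h5 := log_le_of_sq_lt hN ((hp p hpd).resolve_left hY)
          rw [add_zero, le_div_iff₀ (by linarith only [hN'])]
          linarith only [h3', h5, mul_nonneg_of_nonpos_of_nonpos (Mathlib.Tactic.Linarith.sub_nonpos_of_le (Mathlib.Tactic.Linarith.natCast_nonneg ℝ (((2 : ℕ) * k).factorial.factorization p))) (Mathlib.Tactic.Linarith.sub_nonpos_of_le h5)]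
      have h1' : (d.factorization p : ℝ) ≤ v + (n.choose (2 * k)).factorization p := by
        rw [hv]; exact_mod_cast h1
      clear * - d p n k N Y v h2 h4 hlp h1'
      linarith only [h2, h4, hlp, h1', mul_nonneg_of_nonpos_of_nonpos (Mathlib.Tactic.Linarith.sub_nonpos_of_le hlp) (Mathlib.Tactic.Linarith.sub_nonpos_of_le h1')]
    refine (Finset.sum_le_sum hterm).trans ?_
    rw [Finset.sum_add_distrib, Finset.sum_add_distrib, Finset.sum_const, Finset.sum_const,
      ← Finset.sum_filter, Finset.sum_const, nsmul_eq_mul, nsmul_eq_mul, nsmul_eq_mul]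
    have hc1 : (d.primeFactors.card : ℝ) ≤ N := by exact_mod_cast hcard
    have hc2 : ((d.primeFactors.filter (· ≤ Y)).card : ℝ) ≤ Y := by
      have : (d.primeFactors.filter (· ≤ Y)).card ≤ (Icc 1 Y).card :=
        card_le_card fun p hp => mem_Icc.2
          ⟨(Nat.prime_of_mem_primeFactors (mem_filter.1 hp).1).one_le, (mem_filter.1 hp).2⟩
      rw [Nat.card_Icc, add_tsub_cancel_right] at this
      exact_mod_cast this
    have e1 : (d.primeFactors.card : ℝ) * Real.log n ≤ N * Real.log n :=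
      mul_le_mul_of_nonneg_right hc1 hL
    have e2 : (d.primeFactors.card : ℝ) * (2 * k / N) ≤ 2 * k := by
      calc (d.primeFactors.card : ℝ) * (2 * k / N) ≤ N * (2 * k / N) :=
            mul_le_mul_of_nonneg_right hc1 (by positivity)
        _ = 2 * k := by field_simp
    have e3 : ((d.primeFactors.filter (· ≤ Y)).card : ℝ) * (2 * k * Y) ≤ Y * (2 * k * Y) :=
      mul_le_mul_of_nonneg_right hc2 (by positivity)
    rw [ha]
    clear * - d n k N Y e1 e2 e3
    linarith only [e1, e2, e3]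
  -- lower bound
  have hlow : k * (Real.log n - Real.log (2 * k)) ≤ Real.log d := by
    clear * - n k d H C hk hn0 hC N h4k hd hH hd0 hk0 hn0'
    have h1 : ((n : ℝ) / 2) ^ k ≤ d * (k : ℝ) ^ k := by
      calc ((n : ℝ) / 2) ^ k = ∏ _c ∈ C, ((n : ℝ) / 2) := by rw [prod_const, hk]
        _ ≤ ∏ c ∈ C, ((n - c : ℕ) : ℝ) := by
            clear * - n C hn0 k hC d H h4k
            refine Finset.prod_le_prod (fun _ _ => by positivity) fun c hc => ?_
            have h2 := hC c hc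
            have h3 : n ≤ 2 * (n - c) := by omega
            have h4 : (n : ℝ) ≤ 2 * ((n - c : ℕ) : ℝ) := by exact_mod_cast h3
            linarith only [h4]
        _ = d * H := by exact_mod_cast hd.symm
        _ ≤ d * (k : ℝ) ^ k := by
            refine mul_le_mul_of_nonneg_left ?_ (Nat.cast_nonneg d)
            exact_mod_cast hH
    have hd0' : (0 : ℝ) < d := by exact_mod_cast Nat.pos_of_ne_zero hd0
    have h2 := Real.log_le_log (by positivity) h1
    rw [Real.log_mul hd0'.ne' (by positivity), Real.log_pow, Real.log_pow,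
      Real.log_div hn0'.ne' two_ne_zero] at h2
    rw [Real.log_mul two_ne_zero hk0.ne']
    linarith only [h2]
  set L := Real.log n with hL
  have hX : a + 1 ≤ L - Real.log (2 * k) := by
    clear * - a k n hkn hk0 L Y
    have h1 : Real.exp (a + 1) * (2 * k) ≤ n := by linarith only [hkn]
    have h2 := Real.log_le_log (by positivity) h1
    rw [Real.log_mul (Real.exp_pos _).ne' (by positivity), Real.log_exp] at h2
    linarith only [h2]
  have hL0 : 0 < L := by clear * - L a N Y ha2 hN' hn; linarith only [ha2, hN', hn]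
  have hk1 : (k : ℝ) ≤ N * L := by clear * - k N L d a Y hup hlow hX; linarith only [hup, hlow, hX, mul_nonneg_of_nonpos_of_nonpos (Mathlib.Tactic.Linarith.sub_nonpos_of_le (Mathlib.Tactic.Linarith.natCast_nonneg ℝ k)) (Mathlib.Tactic.Linarith.sub_nonpos_of_le hX)]
  have hk2 : (2 * N : ℝ) < k := by exact_mod_cast hcon
  have hX2 : L - Real.log (2 * k) - a < L / 2 := by
    by_contra h1
    linarith only [hup, hlow, hk2, h1, hn, mul_nonneg_of_nonpos_of_nonpos (Mathlib.Tactic.Linarith.sub_nonpos_of_le (sq_nonneg ↑Y)) (le_of_lt (Mathlib.Tactic.Linarith.sub_neg_of_lt hk2)), mul_nonneg_of_nonpos_of_nonpos (Mathlib.Tactic.Linarith.sub_nonpos_of_le (Mathlib.Tactic.Linarith.natCast_nonneg ℝ k)) (Mathlib.Tactic.Linarith.sub_nonpos_of_le (le_of_not_gt h1)), mul_nonneg_of_nonpos_of_nonpos (Mathlib.Tactic.Linarith.sub_nonpos_of_le (Mathlib.Tactic.Linarith.natCast_nonneg ℝ N)) (le_of_lt (Mathlib.Tactic.Linarith.sub_neg_of_lt hk2)), mul_nonneg_of_nonpos_of_nonpos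 (Mathlib.Tactic.Linarith.sub_nonpos_of_le hn) (le_of_lt (Mathlib.Tactic.Linarith.sub_neg_of_lt hk2))]
  have hX3 : Real.log (2 * k) ≤ Real.log (2 * N) + Real.log L := by
    clear * - k N L hN hL0 hk0 hk1
    rw [← Real.log_mul (by positivity) hL0.ne']
    exact Real.log_le_log (by positivity) (by linarith only [hk1])
  have hX4 : Real.log (2 * N) ≤ 2 * N - 1 := Real.log_le_sub_one_of_pos (by positivity)
  have hX5 : Real.log L ≤ L / 4 + 2 := by
    clear * - L hL0 a N k Y hn hX2 hX3 hX4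
    have h1 := Real.log_le_sub_one_of_pos (x := L / 4) (by positivity)
    rw [Real.log_div hL0.ne' (by norm_num)] at h1
    have h2 := Real.log_le_sub_one_of_pos (x := 4) (by norm_num)
    linarith only [hn, hX2, hX3, hX4, h1, h2]
  linarith only [hn, hX2, hX3, hX4, hX5]

end Pool.Agent.Work.MP_d028d5_al
end

-- merged part: Pool.Agent.Work.MP_d028d5_al.Choose
section
/-! Choice of `n`: prescribed prime divisors by the Chinese remainder theorem, and few further
prime divisors by averaging over an arithmetic progression. -/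

namespace Pool.Agent.Work.MP_d028d5_al

open Finset

theorem exists_primes (Z : ℕ) (hZ : 0 < Z) :
    ∃ q : ℕ → ℕ, (∀ i, (q i).Prime ∧ Z < q i ∧ q i ≤ Z * 2 ^ (i + 1)) ∧ StrictMono q := by
  have h : ∀ i : ℕ, ∃ p, p.Prime ∧ Z * 2 ^ i < p ∧ p ≤ 2 * (Z * 2 ^ i) := fun i =>
    Nat.exists_prime_lt_and_le_two_mul _ (by positivity)
  choose q hq using h
  refine ⟨q, fun i => ⟨(hq i).1, ?_, ?_⟩, strictMono_nat_of_lt_succ fun i => ?_⟩
  · exact lt_of_le_of_lt (Nat.le_mul_of_pos_right _ (by positivity)) (hq i).2.1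
  · rw [pow_succ]; linarith only [hq, (hq i).2.2]
  · have h1 := (hq i).2.2
    have h2 := (hq (i + 1)).2.1
    rw [pow_succ] at h2
    linarith only [h1, h2]

theorem card_filter_modEq_le {p A B e U : ℕ} (hA : Nat.Coprime p A) :
    ((Icc 1 U).filter fun z => A * z + B ≡ e [MOD p]).card ≤ U / p + 1 := by
  rw [← card_range (U / p + 1)]
  refine Finset.card_le_card_of_injOn (· / p) ?_ ?_
  · intro z hz
    simp only [coe_filter, mem_Icc, Set.mem_ofPred_eq] at hz
    exact mem_coe.2 (mem_range.2 (Nat.lt_succ_of_le (Nat.div_le_div_right hz.1.2)))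
  · intro z hz z' hz' h
    simp only [coe_filter, mem_Icc, Set.mem_ofPred_eq] at hz hz' h
    have h1 : A * z ≡ A * z' [MOD p] := Nat.ModEq.add_right_cancel' B (hz.2.trans hz'.2.symm)
    have h2 : z ≡ z' [MOD p] := Nat.ModEq.cancel_left_of_coprime hA h1
    rw [← Nat.div_add_mod z p, ← Nat.div_add_mod z' p, h, h2]

theorem exists_good {r w Z : ℕ} (hr : 0 < r) (hZ : 16 * r ≤ Z) (hN : r * w ≤ Z) :
    ∃ (n : ℕ) (q : ℕ → ℕ) (E : Finset ℕ), Z.factorial ^ 2 ∣ n + 1 ∧ StrictMono q ∧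
      (∀ i < r * w, (q i).Prime ∧ Z < q i ∧ q i ∣ n - (16 * r - 2 * (i / w) - 1)) ∧
      (E.card : ℝ) ≤ 9 * r * (2 * Real.log Z + 76) ∧
      ∀ c ∈ Gam r, ∀ p, p.Prime → Z < p → p ∣ n - c → p ∈ E ∨ ∃ i < r * w, q i = p := by
  classical
  obtain ⟨q, hq, hmono⟩ := exists_primes Z (by omega)
  set N := r * w with hNdef
  set L := Z.factorial ^ 2 with hL
  set M := ∏ i ∈ range N, q i with hM
  set U := L * M with hU
  have hLZ : Z ≤ L := (Nat.self_le_factorial Z).trans (Nat.le_self_pow two_ne_zero _)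
  have hM0 : 0 < M := Finset.prod_pos fun i _ => (hq i).1.pos
  have hLU : L ≤ U := Nat.le_mul_of_pos_right _ hM0
  have hcopL : ∀ p, p.Prime → Z < p → Nat.Coprime p L := fun p hp hZp =>
    Nat.Coprime.pow_right 2 ((Nat.Prime.coprime_iff_not_dvd hp).2 fun h =>
      absurd (hp.dvd_factorial.1 h) (not_le.2 hZp))
  obtain hres : ∀ i, ∃ x, L * x ≡ 16 * r - 2 * (i / w) [MOD q i] := by
    intro i
    obtain ⟨x, hx⟩ := Nat.exists_mul_mod_eq_of_coprime (16 * r - 2 * (i / w))
      (hcopL _ (hq i).1 (hq i).2.1).symm (hq i).1.ne_zero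
    exact ⟨x, hx.2⟩
  choose x hx using hres
  have hpp : Set.Pairwise (range N : Finset ℕ) (Function.onFun Nat.Coprime q) :=
    fun i _ j _ hij => (Nat.coprime_primes (hq i).1 (hq j).1).2 (hmono.injective.ne hij)
  obtain ⟨y, hy, hyM⟩ : ∃ y, (∀ i ∈ range N, y ≡ x i [MOD q i]) ∧ y < M :=
    ⟨_, (Nat.chineseRemainderOfFinset x q (range N) (fun i _ => (hq i).1.ne_zero) hpp).2,
      Nat.chineseRemainderOfFinset_lt_prod x q _ hpp⟩
  obtain hGam : ∀ c ∈ Gam r, c < Z := by
    intro c hc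
    rcases mem_Gam.1 hc with h | ⟨j, hj, h⟩ <;> omega
  -- middle primes
  set T := (Ioc 0 U).filter (fun p => p.Prime ∧ Z < p ∧ ¬ ∃ i < N, q i = p) with hT
  let mid : ℕ → ℕ → Finset ℕ := fun z c => T.filter fun p => U * z + L * y ≡ c + 1 [MOD p]
  have hU2 : 2 ≤ U := by omega
  have hU0 : (0 : ℝ) < U := by exact_mod_cast (by omega : 0 < U)
  obtain havg : ∑ z ∈ Icc 1 U, ∑ c ∈ Gam r, ((mid z c).card : ℝ) ≤
      ∑ _z ∈ Icc 1 U, 9 * r * (Real.log (Real.log U) + 73) := by
    clear * - U r mid T L y Z N q M hcopL hq hU2 hM0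
    rw [Finset.sum_comm, sum_const, Nat.card_Icc, add_tsub_cancel_right, nsmul_eq_mul]
    obtain h1 : ∀ c ∈ Gam r, ∑ z ∈ Icc 1 U, ((mid z c).card : ℝ) ≤
        U * (Real.log (Real.log U) + 73) := by
      intro c _
      obtain e1 : ∑ z ∈ Icc 1 U, (mid z c).card =
          ∑ p ∈ T, ((Icc 1 U).filter fun z => U * z + L * y ≡ c + 1 [MOD p]).card := by
        simp only [mid, card_filter]
        exact Finset.sum_comm
      obtain e2 : ∀ p ∈ T, (((Icc 1 U).filter fun z => U * z + L * y ≡ c + 1 [MOD p]).card : ℝ) ≤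
          U * (p : ℝ)⁻¹ + 1 := by
        clear * - T U Z N q L y c M hcopL hq
        intro p hp
        obtain ⟨-, hp1, hp2, hp3⟩ := mem_filter.1 hp
        obtain hc : Nat.Coprime p U := by
          refine Nat.Coprime.mul_right (hcopL p hp1 hp2) (Nat.Coprime.prod_right fun i hi => ?_)
          exact (Nat.coprime_primes hp1 (hq i).1).2 fun h => hp3 ⟨i, mem_range.1 hi, h.symm⟩
        have h3 := card_filter_modEq_le (B := L * y) (e := c + 1) (U := U) hc
        have h4 : ((U / p : ℕ) : ℝ) ≤ U / p := Nat.cast_div_le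
        have h5 : (((Icc 1 U).filter fun z => U * z + L * y ≡ c + 1 [MOD p]).card : ℝ) ≤
            (U / p : ℕ) + 1 := by exact_mod_cast h3
        rw [← div_eq_mul_inv]
        linarith only [h4, h5]
      obtain e3 : ∑ p ∈ T, (p : ℝ)⁻¹ ≤ Real.log (Real.log U) + 72 := by
        have h3 := Pool.Agent.Lib.ANT.abs_sum_inv_prime_sub_loglog_le U hU2
        have h4 : ∑ p ∈ T, (p : ℝ)⁻¹ ≤ ∑ p ∈ (Ioc 0 U).filter Nat.Prime, (p : ℝ)⁻¹ :=
          Finset.sum_le_sum_of_subset_of_nonneg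
            (fun p hp => mem_filter.2 ⟨(mem_filter.1 hp).1, (mem_filter.1 hp).2.1⟩)
            fun p _ _ => by positivity
        have := (abs_le.1 h3).2
        linarith only [h4, this]
      obtain e4 : (T.card : ℝ) ≤ U := by
        have := card_filter_le (Ioc 0 U) (fun p => p.Prime ∧ Z < p ∧ ¬ ∃ i < N, q i = p)
        rw [Nat.card_Ioc, tsub_zero] at this
        exact_mod_cast this
      rw [← Nat.cast_sum, e1, Nat.cast_sum]
      refine (Finset.sum_le_sum e2).trans ?_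
      rw [Finset.sum_add_distrib, ← Finset.mul_sum, sum_const, nsmul_eq_mul, mul_one]
      clear * - U T e4 e3
      linarith only [e4, e3, mul_nonneg_of_nonpos_of_nonpos (Mathlib.Tactic.Linarith.sub_nonpos_of_le (Mathlib.Tactic.Linarith.natCast_nonneg ℝ U)) (Mathlib.Tactic.Linarith.sub_nonpos_of_le e3)]
    refine (Finset.sum_le_sum h1).trans ?_
    rw [sum_const, nsmul_eq_mul]
    have h2 : ((Gam r).card : ℝ) ≤ 9 * r := by exact_mod_cast card_Gam r
    obtain h3 : 0 ≤ Real.log (Real.log U) + 73 := by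
      have h3 := (abs_le.1 (Pool.Agent.Lib.ANT.abs_sum_inv_prime_sub_loglog_le U hU2)).2
      have h4 : 0 ≤ ∑ p ∈ (Ioc 0 U).filter Nat.Prime, (p : ℝ)⁻¹ :=
        Finset.sum_nonneg fun p _ => by positivity
      linarith only [h3, h4]
    calc ((Gam r).card : ℝ) * (U * (Real.log (Real.log U) + 73))
        ≤ 9 * r * (U * (Real.log (Real.log U) + 73)) :=
          mul_le_mul_of_nonneg_right h2 (by positivity)
      _ = _ := by ring
  obtain ⟨z, hz, hzle⟩ := Finset.exists_le_of_sum_le (nonempty_Icc.2 (by omega)) havg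
  rw [mem_Icc] at hz
  have hUz : U ≤ U * z := Nat.le_mul_of_pos_right _ hz.1
  set n := U * z + L * y - 1 with hn
  have hn1 : n + 1 = U * z + L * y := by omega
  obtain hnU : n < (U + 1) * (U + 1) := by
    clear * - U z hz L y M hyM n r Z hr hZ hLZ hLU hn1
    have h1 : U * z ≤ U * U := Nat.mul_le_mul_left _ hz.2
    have h2 : L * y ≤ U := Nat.mul_le_mul_left _ hyM.le
    linarith only [hr, hZ, hLZ, hLU, hn1, h1, h2]
  obtain hZn : Z + 1 ≤ n + 1 := by
    clear * - Z n U z L y hn1 r hr hZ hL hLU hUz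
    rw [hn1]
    refine le_trans ?_ (hLU.trans (hUz.trans (Nat.le_add_right _ _)))
    have := Nat.pow_le_pow_left (Nat.self_le_factorial Z) 2
    clear * - Z L r hr this hZ hL
    nlinarith only [hr, this, hZ, hL]
  obtain hdvd : ∀ c p, c < Z → (p ∣ n - c ↔ U * z + L * y ≡ c + 1 [MOD p]) := by
    clear * - Z n U z L y r w q hn1 hZn
    intro c p hc
    rw [Nat.ModEq.comm, Nat.modEq_iff_dvd' (by omega)]
    congr! 1
    omega
  let big : ℕ → Finset ℕ := fun c => (n - c).primeFactors.filter (U < ·)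
  obtain hbig : ∀ c, (big c).card ≤ 1 := by
    clear * - big n U r w Z hr hZ q hLZ hLU y z hUz hn1 hnU
    intro c
    rw [card_le_one]
    intro p hp p' hp'
    by_contra hne
    obtain ⟨h1, h2⟩ := mem_filter.1 hp
    obtain ⟨h3, h4⟩ := mem_filter.1 hp'
    rw [Nat.mem_primeFactors] at h1 h3
    have h5 := Nat.le_of_dvd (Nat.pos_of_ne_zero h1.2.2)
      (Nat.Coprime.mul_dvd_of_dvd_of_dvd ((Nat.coprime_primes h1.1 h3.1).2 hne) h1.2.1 h3.2.1)
    have h6 : (U + 1) * (U + 1) ≤ p * p' := Nat.mul_le_mul h2 h4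
    omega
  refine ⟨n, q, (Gam r).biUnion fun c => mid z c ∪ big c, ?_, hmono, ?_, ?_, ?_⟩
  · rw [hn1, hU, mul_assoc, ← mul_add]
    exact dvd_mul_right _ _
  · intro i hi
    refine ⟨(hq i).1, (hq i).2.1, ?_⟩
    have hiw : i / w < r := Nat.div_lt_of_lt_mul (by rwa [mul_comm])
    rw [hdvd _ _ (by omega)]
    have h1 : q i ∣ U * z :=
      ((Finset.dvd_prod_of_mem q (mem_range.2 hi)).mul_left L).mul_right z
    have h2 : L * y ≡ 16 * r - 2 * (i / w) [MOD q i] :=
      ((hy i (mem_range.2 hi)).mul_left L).trans (hx i)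
    have h3 := ((Nat.modEq_zero_iff_dvd.2 h1).add h2)
    rw [zero_add] at h3
    convert h3 using 1
    clear * - r i w Z hr q y z hiw; omega
  · have h1 : (((Gam r).biUnion fun c => mid z c ∪ big c).card : ℝ) ≤
        ∑ c ∈ Gam r, (((mid z c).card : ℝ) + 1) := by
      have : ((Gam r).biUnion fun c => mid z c ∪ big c).card ≤
          ∑ c ∈ Gam r, ((mid z c).card + 1) :=
        card_biUnion_le.trans (Finset.sum_le_sum fun c _ =>
          (card_union_le _ _).trans (Nat.add_le_add_left (hbig c) _))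
      exact_mod_cast this
    rw [Finset.sum_add_distrib, sum_const, nsmul_eq_mul, mul_one] at h1
    have h2 : ((Gam r).card : ℝ) ≤ 9 * r := by exact_mod_cast card_Gam r
    have hZ0 : (0 : ℝ) < Z := by exact_mod_cast (by omega : 0 < Z)
    have hlogZ : Real.log Z ≤ Z := (Real.log_le_sub_one_of_pos hZ0).trans (by clear * - Z hZ0; linarith only [])
    have hNZ : (N : ℝ) ≤ Z := by exact_mod_cast hN
    obtain h3 : Real.log U ≤ 4 * Z ^ 2 := by
      clear * - L Z M N q hq r w hr hZ hLZ y z hM0 hlogZ hNZ hZ0 U hU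
      obtain e1 : (L : ℝ) ≤ ((Z : ℝ) ^ Z) ^ 2 := by
        have : L ≤ (Z ^ Z) ^ 2 := Nat.pow_le_pow_left (Nat.factorial_le_pow Z) 2
        exact_mod_cast this
      obtain e2 : (M : ℝ) ≤ ((Z : ℝ) * 2 ^ N) ^ N := by
        have : M ≤ (Z * 2 ^ N) ^ (range N).card :=
          Finset.prod_le_pow_card _ _ _ fun i hi => (hq i).2.2.trans
            (Nat.mul_le_mul_left _ (Nat.pow_le_pow_right two_pos (mem_range.1 hi)))
        rw [card_range] at this
        exact_mod_cast this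
      have hL0 : (0 : ℝ) < L := by exact_mod_cast (by omega : 0 < L)
      have hM0' : (0 : ℝ) < M := by exact_mod_cast hM0
      have e3 := Real.log_le_log hL0 e1
      have e4 := Real.log_le_log hM0' e2
      rw [Real.log_pow, Real.log_pow] at e3
      rw [Real.log_pow, Real.log_mul hZ0.ne' (by positivity), Real.log_pow] at e4
      have e5 : Real.log 2 ≤ 1 := by have := Real.log_two_lt_d9; linarith only [this]
      have hN0 : (0 : ℝ) ≤ N := Nat.cast_nonneg N
      have e6 : Real.log Z + N * Real.log 2 ≤ 2 * Z := by clear * - Z N hlogZ hNZ e5; linarith only [hlogZ, hNZ, e5, mul_nonneg_of_nonpos_of_nonpos (Mathlib.Tactic.Linarith.sub_nonpos_of_le (Mathlib.Tactic.Linarith.natCast_nonneg ℝ N)) (Mathlib.Tactic.Linarith.sub_nonpos_of_le e5)]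
      have e7 : (N : ℝ) * (Real.log Z + N * Real.log 2) ≤ Z * (2 * Z) :=
        mul_le_mul hNZ e6 (by have := Real.log_natCast_nonneg Z; positivity) hZ0.le
      rw [hU, Nat.cast_mul, Real.log_mul hL0.ne' hM0'.ne']
      push_cast at e3
      clear * - L M Z N e3 e4 e7 hlogZ
      linarith only [e3, e4, e7, hlogZ, mul_nonneg_of_nonpos_of_nonpos (Mathlib.Tactic.Linarith.sub_nonpos_of_le (Mathlib.Tactic.Linarith.natCast_nonneg ℝ Z)) (Mathlib.Tactic.Linarith.sub_nonpos_of_le hlogZ)]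
    obtain h4 : Real.log (Real.log U) ≤ 2 * Real.log Z + 2 := by
      clear * - U hU2 Z h3 hZ0
      have e1 : 0 < Real.log U := Real.log_pos (by exact_mod_cast hU2)
      have e2 := Real.log_le_log e1 h3
      rw [Real.log_mul (by norm_num) (by positivity), Real.log_pow] at e2
      obtain e3 : Real.log 4 ≤ 2 := by
        rw [show (4 : ℝ) = 2 ^ 2 by norm_num, Real.log_pow]
        have := Real.log_two_lt_d9
        push_cast
        linarith only [this]
      push_cast at e2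
      linarith only [e2, e3]
    have hr0 : (0 : ℝ) ≤ r := Nat.cast_nonneg r
    clear * - r mid z big Z U hzle h1 h2 h4
    linarith only [hzle, h1, h2, h4, mul_nonneg_of_nonpos_of_nonpos (Mathlib.Tactic.Linarith.sub_nonpos_of_le (Mathlib.Tactic.Linarith.natCast_nonneg ℝ r)) (Mathlib.Tactic.Linarith.sub_nonpos_of_le h4)]
  · intro c hc p hp hZp hpd
    by_cases hS : ∃ i < N, q i = p
    · exact Or.inr hS
    refine Or.inl (mem_biUnion.2 ⟨c, hc, mem_union.2 ?_⟩)
    have hcZ := hGam c hc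
    by_cases hpU : p ≤ U
    · exact Or.inl (mem_filter.2 ⟨mem_filter.2 ⟨mem_Ioc.2 ⟨hp.pos, hpU⟩, hp, hZp, hS⟩,
        (hdvd c p hcZ).1 hpd⟩)
    · exact Or.inr (mem_filter.2 ⟨Nat.mem_primeFactors.2 ⟨hp, hpd, by omega⟩, not_le.1 hpU⟩)

end Pool.Agent.Work.MP_d028d5_al
end
end

-- merged part: Pool.Agent.Work.MP_d028d5_al.Stage
section
/-! One stage of the construction. -/

namespace Pool.Agent.Work.MP_d028d5_al

open Finset Filter CategoryTheory Pool.Agent.Lib.SymRep

theorem two_pow_le_two_mul_factorial (m : ℕ) : 2 ^ m ≤ 2 * m.factorial := by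
  induction m with
  | zero => simp
  | succ m ih =>
    rcases Nat.eq_zero_or_pos m with rfl | hm
    · simp
    · rw [pow_succ, Nat.factorial_succ]
      nlinarith only [ih, hm, m.factorial_pos]

theorem exists_cofactor {n Z c : ℕ} (hZ : 3 ≤ Z) (h : Z.factorial ^ 2 ∣ n + 1) (hc : c < Z) :
    ∃ u, n - c = (c + 1) * u ∧ 1 < u ∧ ∀ p, p.Prime → p ∣ u → Z < p := by
  obtain ⟨y, hy⟩ := h
  obtain ⟨e, he⟩ := Nat.dvd_factorial (Nat.succ_pos c) hc
  have hy0 : 0 < y := by
    rcases Nat.eq_zero_or_pos y with rfl | h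
    · simp at hy
    · exact h
  have he0 : 0 < e := by
    rcases Nat.eq_zero_or_pos e with rfl | h
    · exact absurd he (by simpa using Z.factorial_ne_zero)
    · exact h
  have h3 : 3 ≤ Z.factorial * (e * y) :=
    (hZ.trans (Nat.self_le_factorial Z)).trans (Nat.le_mul_of_pos_right _ (Nat.mul_pos he0 hy0))
  obtain ⟨u, hu⟩ : ∃ u, Z.factorial * (e * y) = u + 1 := ⟨_, (Nat.succ_pred_eq_of_pos (by omega)).symm⟩
  have h4 : n + 1 = (c + 1) * (u + 1) := by
    rw [← hu, hy, pow_two]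
    nth_rewrite 1 [he]
    simp only [Nat.succ_eq_add_one]
    ring
  refine ⟨u, ?_, by omega, fun p hp hpu => ?_⟩
  · have : (c + 1) * (u + 1) = (c + 1) * u + (c + 1) := by ring
    omega
  · by_contra hpZ
    have h5 : p ∣ u + 1 := hu ▸ (hp.dvd_factorial.2 (not_lt.1 hpZ)).mul_right _
    exact hp.one_lt.ne' (Nat.dvd_one.1 ((Nat.dvd_add_right hpu).1 h5))

theorem eq_of_dvd_sub {n Z c c' p : ℕ} (hn : Z ≤ n) (hc : c < Z) (hc' : c' < Z) (hp : Z < p)
    (h : p ∣ n - c) (h' : p ∣ n - c') : c = c' := by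
  rcases le_total c c' with h1 | h1
  · have h2 := Nat.dvd_sub h h'
    have h3 : n - c - (n - c') = c' - c := by omega
    rw [h3] at h2
    have := Nat.eq_zero_of_dvd_of_lt h2 (by omega)
    omega
  · have h2 := Nat.dvd_sub h' h
    have h3 : n - c' - (n - c) = c - c' := by omega
    rw [h3] at h2
    have := Nat.eq_zero_of_dvd_of_lt h2 (by omega)
    omega

theorem two_row_degree {n k d : ℕ} {u : ℕ → ℕ} (hk : 0 < k) (hkn : 2 * k ≤ n)
    (hu : ∀ c < 2 * k, n - c = (c + 1) * u c)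
    (hd : d * (k.factorial * (n - k + 1).factorial) = n.factorial * (n - 2 * k + 1)) :
    d = 2 * (∏ c ∈ range (k - 1), u c) * u (2 * k - 1) := by
  obtain ⟨k, rfl⟩ : ∃ j, k = j + 1 := ⟨k - 1, by omega⟩
  have h1 := Nat.factorial_mul_descFactorial (n := n) (k := k) (by omega)
  have h2 : n.descFactorial k = k.factorial * ∏ c ∈ range k, u c := by
    rw [Nat.descFactorial_eq_prod_range, ← Finset.prod_range_add_one_eq_factorial,
      ← Finset.prod_mul_distrib]
    exact Finset.prod_congr rfl fun c hc => hu c (by have := mem_range.1 hc; omega)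
  have h3 : n - 2 * (k + 1) + 1 = 2 * (k + 1) * u (2 * (k + 1) - 1) := by
    have := hu (2 * (k + 1) - 1) (by omega)
    rw [show 2 * (k + 1) - 1 + 1 = 2 * (k + 1) by omega] at this
    omega
  rw [show n - (k + 1) + 1 = n - k by omega, ← h1, h2, h3, Nat.factorial_succ] at hd
  rw [add_tsub_cancel_right]
  refine Nat.eq_of_mul_eq_mul_right
    (Nat.mul_pos (Nat.mul_pos (Nat.succ_pos k) k.factorial_pos) (n - k).factorial_pos) ?_
  rw [hd]
  simp only [Nat.succ_eq_add_one]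
  ring

theorem spd_delta {δ e : ℝ} (h0 : 0 < δ) (he : 2 ≤ e) (h : δ * (20 * e) = 1) : δ ≤ 1 / 40 := by
  linarith only [h, h0, he, mul_nonneg_of_nonpos_of_nonpos (le_of_lt (Mathlib.Tactic.Linarith.sub_neg_of_lt h0)) (Mathlib.Tactic.Linarith.sub_nonpos_of_le he)]

theorem spd_sq {m : ℕ} (h : 16 ≤ m) : 64 * m ≤ 4 * m ^ 2 := by nlinarith only [h]

theorem spd_two {x f n : ℕ} (h1 : x ≤ 2 * f) (h2 : f ^ 2 ≤ n + 1) (h3 : 3 ≤ f) : x ≤ n := by
  nlinarith only [h2, h3, h1]

theorem spd_four {z n : ℕ} (h : z * z ≤ n + 1) (h5 : 5 ≤ z) : 4 * z ≤ n := by nlinarith only [h, h5]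

theorem spd_log {a e r m l L : ℝ} (h1 : 4 * m ^ 2 * l ≤ L) (h2 : 0.6931471803 < l) (he : 2 ≤ e)
    (hr : 20 * e + 4 * a ≤ r) (hr8 : 8 ≤ r) (hm : r ≤ m) : 4 * a + 8 * m ≤ L := by
  have h3 : 8 * m ≤ m ^ 2 := by linarith only [hr8, hm, mul_nonneg_of_nonpos_of_nonpos (Mathlib.Tactic.Linarith.sub_nonpos_of_le hr8) (Mathlib.Tactic.Linarith.sub_nonpos_of_le hr8), mul_nonneg_of_nonpos_of_nonpos (Mathlib.Tactic.Linarith.sub_nonpos_of_le hr8) (Mathlib.Tactic.Linarith.sub_nonpos_of_le hm), mul_nonneg_of_nonpos_of_nonpos (Mathlib.Tactic.Linarith.sub_nonpos_of_le hm) (Mathlib.Tactic.Linarith.sub_nonpos_of_le hm)]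
  have h4 : 4 * m ^ 2 * (1 / 2) ≤ 4 * m ^ 2 * l :=
    mul_le_mul_of_nonneg_left (by linarith only [h2]) (by positivity)
  linarith only [h1, he, hr, hr8, hm, h3, h4]

theorem spd_card {y c r w lz lr : ℝ} (hr : 8 ≤ r) (h1 : lz ≤ 6 * lr + 3)
    (hc : c ≤ 9 * r * (2 * lz + 76)) (hw : y + 9 * r * (12 * lr + 90) ≤ w) : y + c ≤ w := by
  have : 9 * r * (2 * lz + 76) ≤ 9 * r * (12 * lr + 90) :=
    mul_le_mul_of_nonneg_left (by linarith only [h1]) (by linarith only [hr])
  linarith only [hc, hw, this]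

theorem spd_dn {δ e a r z n : ℝ} (h0 : 0 < δ) (h : δ * (20 * e) = 1) (ha : 1 ≤ a)
    (hr : 20 * e + 4 * a ≤ r) (hr8 : 8 ≤ r) (hz : r ≤ z) (hn : 4 * z ≤ n) (hzz : z * z ≤ n + 1) :
    z ≤ 3 * δ * n := by
  have h1 : δ * (20 * e) ≤ δ * z := mul_le_mul_of_nonneg_left (by linarith only [ha, hr, hz]) h0.le
  have h2 : 1 * z ≤ δ * z * z := mul_le_mul_of_nonneg_right (by linarith only [h, h1]) (by linarith only [hr8, hz])
  have h3 : δ * (z * z) ≤ δ * (3 * n) := mul_le_mul_of_nonneg_left (by linarith only [hr8, hz, hn, hzz]) h0.le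
  linarith only [h2, h3]

theorem spd_big {δ n t : ℝ} (h1 : δ ≤ 1 / 40) (hn : 32 ≤ n) (h : (1 - 6 * δ) * n < t) :
    n + 2 < 2 * t := by
  have : δ * n ≤ 1 / 40 * n := mul_le_mul_of_nonneg_right h1 (by linarith only [hn])
  linarith only [hn, h, this]

theorem stage (Y : ℕ) : ∃ r₀ : ℕ, ∀ r w : ℕ, r₀ ≤ r → r ≤ w → w ≤ r ^ 2 →
    (Y : ℝ) + 9 * r * (12 * Real.log r + 90) ≤ w →
    ∃ (n : ℕ) (P : Finset ℕ), Y < n ∧ (∀ p ∈ P, p.Prime ∧ Y < p ∧ p ≤ n) ∧
      ∀ π : Set ℕ, 2 ∈ π → (∀ p, Y < p → p ≤ n → (p ∈ π ↔ p ∈ P)) →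
        (∀ s ∈ primeCounts π (Equiv.Perm (Fin n)), s ≤ 2 * w) ∧
        ∃ R : Finset ℕ, (R : Set ℕ) ⊆ rho π (Equiv.Perm (Fin n)) ∧ r * w ≤ R.card := by
  classical
  set a : ℝ := 2 * ((Y : ℝ) ^ 2 + 1) + 1 with ha
  have ha0 : 1 ≤ a := by rw [ha]; linarith only [sq_nonneg (Y : ℝ)]
  set e : ℝ := Real.exp a with he
  have he2 : 2 ≤ e := by have := Real.add_one_le_exp a; linarith only [ha0, this]
  set δ : ℝ := 1 / (20 * e) with hδ
  have hδ0 : 0 < δ := by positivity
  have hδe : δ * (20 * e) = 1 := by rw [hδ]; field_simp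
  have hδ1 : δ ≤ 1 / 40 := spd_delta hδ0 he2 hδe
  obtain ⟨n₀, hn₀⟩ := eventually_atTop.1
    ((eventually_prime (a := 1 - 6 * δ) (b := 1 - 4 * δ) (by linarith only [hδ0, hδ1]) (by linarith only [hδ0])).and
      (eventually_prime (a := 1 - 4 * δ) (b := 1 - 3 * δ) (by linarith only [hδ0, hδ1]) (by linarith only [hδ0])))
  obtain ⟨r₁, hr₁⟩ := exists_nat_ge (20 * e + 4 * a)
  refine ⟨r₁ + n₀ + Y + 8, fun r w hr hrw hwr hw => ?_⟩
  set N := r * w with hN
  set N₁ := 2 * N with hN₁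
  set Z := 4 * N₁ ^ 2 with hZ
  have hrN : r ≤ N := Nat.le_mul_of_pos_right _ (by omega)
  have hwN : w ≤ N := Nat.le_mul_of_pos_left _ (by omega)
  have hZN : 64 * N₁ ≤ Z := spd_sq (by omega)
  obtain ⟨n, q, E, hdiv, hmono, hq, hE, hcover⟩ :=
    exists_good (r := r) (w := w) (Z := Z) (by omega) (by omega) (by omega)
  have hfac : Z.factorial ^ 2 ≤ n + 1 := Nat.le_of_dvd (Nat.succ_pos n) hdiv
  have hZfac : Z ≤ Z.factorial := Nat.self_le_factorial Z
  have hZ5 : 5 ≤ Z := by omega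
  have hn2 : 2 ^ Z ≤ n :=
    spd_two (two_pow_le_two_mul_factorial Z) hfac (le_trans (le_trans (by norm_num) hZ5) hZfac)
  have hnZ : Z * Z ≤ n + 1 := (Nat.mul_le_mul hZfac hZfac).trans (by rw [← pow_two]; exact hfac)
  have hZn : 4 * Z ≤ n := spd_four hnZ hZ5
  have hrR : 20 * e + 4 * a ≤ r := hr₁.trans (by exact_mod_cast (by omega : r₁ ≤ r))
  have hr8 : (8 : ℝ) ≤ r := by exact_mod_cast (by omega : 8 ≤ r)
  have hN₁R : (r : ℝ) ≤ N₁ := by exact_mod_cast (by omega : r ≤ N₁)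
  have hZR : (Z : ℝ) = 4 * (N₁ : ℝ) ^ 2 := by rw [hZ]; push_cast; ring
  obtain hlogn : 4 * a + 8 * N₁ ≤ Real.log n := by
    have h1 : Real.log ((2 : ℝ) ^ Z) ≤ Real.log n :=
      Real.log_le_log (by positivity) (by exact_mod_cast hn2)
    rw [Real.log_pow, hZR] at h1
    exact spd_log h1 Real.log_two_gt_d9 he2 hrR hr8 hN₁R
  obtain hEY : Y + E.card ≤ w := by
    clear * - Z r N w hN hwr N₁ hZ hN₁ Y n₀ r₁ n hZ5 δ e hδ0 hδ1 hr8 E hE hw
    obtain h1 : Real.log Z ≤ 6 * Real.log r + 3 := by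
      clear * - Z r N w hN hwr N₁ hZ hN₁ hZ5 δ e hδ0 hδ1 hr8
      obtain e1 : Z ≤ 16 * r ^ 6 := by
        have : N ≤ r ^ 3 := by rw [hN, pow_succ' r 2]; exact Nat.mul_le_mul_left _ hwr
        calc Z = 16 * N ^ 2 := by rw [hZ, hN₁]; ring
          _ ≤ 16 * (r ^ 3) ^ 2 := Nat.mul_le_mul_left _ (Nat.pow_le_pow_left this 2)
          _ = 16 * r ^ 6 := by ring
      have e2 : Real.log Z ≤ Real.log (2 ^ 4 * (r : ℝ) ^ 6) :=
        Real.log_le_log (by exact_mod_cast (by omega : 0 < Z)) (by exact_mod_cast e1)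
      rw [Real.log_mul (by norm_num) (by positivity), Real.log_pow, Real.log_pow] at e2
      have := Real.log_two_lt_d9
      push_cast at e2
      linarith only [hδ0, hδ1, e2, this]
    obtain h2 : ((Y + E.card : ℕ) : ℝ) ≤ w := by
      rw [Nat.cast_add]
      exact spd_card hr8 h1 hE hw
    exact_mod_cast h2
  obtain hGam : ∀ c ∈ Gam r, c < Z := by
    clear * - r Z Y n₀ r₁ w hrN hZN n E hZ5
    intro c hc
    rcases mem_Gam.1 hc with h | ⟨j, hj, h⟩ <;> omega
  obtain hu : ∀ c, ∃ u, c < Z → n - c = (c + 1) * u ∧ 1 < u ∧ ∀ p, p.Prime → p ∣ u → Z < p := by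
    intro c
    by_cases hc : c < Z
    · obtain ⟨u, h⟩ := exists_cofactor (by omega) hdiv hc
      exact ⟨u, fun _ => h⟩
    · exact ⟨0, fun h => absurd h hc⟩
  choose u hu using hu
  set P := (Gam r).biUnion fun c => (n - c).primeFactors.filter (Z < ·) with hP
  obtain hmemP : ∀ p, p ∈ P ↔ p.Prime ∧ Z < p ∧ ∃ c ∈ Gam r, p ∣ n - c := by
    clear * - P Z r n hP hGam Y n₀ r₁ w E hZn
    intro p
    simp only [hP, mem_biUnion, mem_filter, Nat.mem_primeFactors]
    constructor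
    · rintro ⟨c, hc, ⟨h1, h2, -⟩, h3⟩
      exact ⟨h1, h3, c, hc, h2⟩
    · rintro ⟨h1, h3, c, hc, h2⟩
      exact ⟨c, hc, ⟨h1, h2, by have := hGam c hc; omega⟩, h3⟩
  have hle : ∀ p c, c < n → p ∣ n - c → p ≤ n := fun p c hc h =>
    (Nat.le_of_dvd (by omega) h).trans (Nat.sub_le _ _)
  refine ⟨n, P, by omega, fun p hp => ?_, fun π h2 hπ => ⟨?_, ?_⟩⟩
  · obtain ⟨h1, h3, c, hc, h4⟩ := (hmemP p).1 hp
    exact ⟨h1, by omega, hle p c (by have := hGam c hc; omega) h4⟩
  · rintro _ ⟨_, ⟨⟨V, hV, rfl⟩, hπd⟩, rfl⟩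
    set d := Module.finrank ℂ V with hd
    obtain hd0 : d ≠ 0 := by
      obtain ⟨B, -, hB⟩ := simple_hook V
      intro h0
      rw [← hd, h0, zero_mul] at hB
      exact n.factorial_ne_zero hB.symm
    obtain ⟨⟨t₂, ht₂, ht₂a, ht₂b⟩, ⟨t₁, ht₁, ht₁a, ht₁b⟩⟩ := hn₀ n (by omega)
    have hnR : (4 * Z : ℝ) ≤ n := by exact_mod_cast hZn
    have hnZR : (Z : ℝ) * Z ≤ n + 1 := by exact_mod_cast hnZ
    have hZr : (r : ℝ) ≤ Z := by exact_mod_cast (by omega : r ≤ Z)
    have hδn : (Z : ℝ) ≤ 3 * δ * n := spd_dn hδ0 hδe ha0 hrR hr8 hZr hnR hnZR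
    have hn32 : (32 : ℝ) ≤ n := by linarith only [hnR, hZr, hr8]
    have hδn0 : 0 ≤ δ * n := mul_nonneg hδ0.le (Nat.cast_nonneg n)
    obtain hnot : ∀ t : ℕ, t.Prime → (1 - 6 * δ) * n < t → (t : ℝ) ≤ (1 - 3 * δ) * n → ¬ t ∣ d := by
      clear * - δ n d Z e hδn hδ1 hn32 r P hmemP π hπ Y n₀ r₁ w hr hrN hZN E V hwN hEY hπd hd0
        hGam
      intro t ht h3 h4 htd
      obtain h5 : t + Z ≤ n := by
        have : (t : ℝ) + Z ≤ n := by linarith only [h4, hδn]
        exact_mod_cast this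
      obtain h6 : n < 2 * t := by
        have : (n : ℝ) < 2 * t := by linarith only [spd_big hδ1 hn32 h3]
        exact_mod_cast this
      obtain ⟨-, -, c, hc, x, hx⟩ := (hmemP t).1 ((hπ t (by omega) (by omega)).1
        (hπd t (Nat.mem_primeFactors.2 ⟨ht, htd, hd0⟩)))
      have := hGam c hc
      rcases x with _ | _ | x
      · omega
      · omega
      · have : t * (x + 1 + 1) = t * x + 2 * t := by ring
        omega
    obtain hlt : t₂ < t₁ := by
      have : (t₂ : ℝ) < t₁ := ht₂b.trans_lt ht₁a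
      exact_mod_cast this
    obtain ht₁n : t₁ ≤ n := by
      have : (t₁ : ℝ) ≤ n := by linarith only [ht₁b, hδn0]
      exact_mod_cast this
    obtain hbig : n + 2 < 2 * t₂ := by
      have : (n : ℝ) + 2 < 2 * t₂ := spd_big hδ1 hn32 ht₂a
      exact_mod_cast this
    obtain ⟨k, H, C, hk, hCk, hCs, hCn, hH0, hH, hHp, hdH⟩ := near_row V ht₁ ht₂ hlt ht₁n hbig
      (hnot t₁ ht₁ (by linarith only [ht₁a, hδn0]) ht₁b)
      (hnot t₂ ht₂ ht₂a (by linarith only [ht₂b, hδn0]))
    rw [← hd] at hdH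
    have hdvdC : ∀ p ∈ d.primeFactors, ∃ c ∈ C, p ∣ n - c := fun p hp =>
      (Prime.dvd_finsetProd_iff (Nat.prime_of_mem_primeFactors hp).prime _).1
        (hdH ▸ (Nat.dvd_of_mem_primeFactors hp).mul_right H)
    obtain hdP : ∀ p ∈ d.primeFactors, p ≤ Y ∨ p ∈ P := by
      intro p hp
      obtain ⟨c, hc, h⟩ := hdvdC p hp
      by_cases hpY : p ≤ Y
      · exact Or.inl hpY
      · exact Or.inr ((hπ p (not_le.1 hpY) (hle p c (hCn c hc) h)).1 (hπd p hp))
    obtain hcardaux : ∀ I : Finset ℕ,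
        (∀ p ∈ d.primeFactors, Z < p → p ∈ E ∨ ∃ i ∈ I, q i = p) →
        d.primeFactors.card ≤ w + I.card := by
      clear * - d Z E q Y P hdP r n hmemP w n₀ r₁ hEY V t₂ t₁ k H C
      intro I hI
      obtain h1 : d.primeFactors ⊆ (Icc 1 Y ∪ E) ∪ I.image q := by
        intro p hp
        simp only [mem_union, mem_Icc, mem_image]
        rcases hdP p hp with h | h
        · exact Or.inl (Or.inl ⟨(Nat.prime_of_mem_primeFactors hp).one_le, h⟩)
        · rcases hI p hp ((hmemP p).1 h).2.1 with h' | h'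
          · exact Or.inl (Or.inr h')
          · exact Or.inr h'
      have h3 := card_le_card h1
      have h4 := card_union_le (Icc 1 Y ∪ E) (I.image q)
      have h5 := card_union_le (Icc 1 Y) E
      have h6 := card_image_le (s := I) (f := q)
      rw [Nat.card_Icc] at h5
      omega
    obtain hcard1 : d.primeFactors.card ≤ N₁ := by
      clear * - d w N hcardaux Z r n E q P hmemP Y hdP n₀ r₁ hr hrN hZN V t₂ t₁ k H C hcover N₁ hwN
      have := hcardaux (range N) (by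
        intro p hp hZp
        obtain ⟨h1, -, c, hc, h3⟩ := (hmemP p).1 ((hdP p hp).resolve_left (by omega))
        simpa using hcover c hc p h1 hZp h3)
      rw [card_range] at this
      omega
    obtain hk2 : k ≤ 2 * N₁ := by
      clear * - n k d H Y N₁ C hCk hCs hH hdH n₀ r₁ r w hr hrN E V t₂ t₁ hcard1 P Z hmemP hdP hk δ
        e ht₁a ht₂a he2 hδe hlogn
      refine size_bound (Y := Y) hCk (fun c hc => lt_two_mul hCk hCs hc) hH hdH (by omega) hcard1
        (fun p hp => (hdP p hp).imp_right fun h => ((hmemP p).1 h).2.1) ?_ hlogn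
      have h1 : (k : ℝ) + t₁ + t₂ ≤ 2 * n := by exact_mod_cast hk
      have h3 : (k : ℝ) ≤ 10 * δ * n := by linarith only [h1, ht₁a, ht₂a]
      calc 2 * e * k ≤ 2 * e * (10 * δ * n) := mul_le_mul_of_nonneg_left h3 (by linarith only [he2])
        _ = δ * (20 * e) * n := by ring
        _ = n := by rw [hδe, one_mul]
    have hCZ : ∀ c ∈ C, c < Z := fun c hc => by clear * - c k C hCk hCs hc Z Y n₀ r₁ r w hZN n E hZ5 V t₂ t₁ H hk2; have := lt_two_mul hCk hCs hc; omega
    obtain hCG : C ⊆ Gam r := by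
      clear * - C n u Z r hu hCZ d H hdH k hHp Y n₀ r₁ w hZN E hZ5 V t₂ t₁ hCk hk2 P hmemP hdP hd0
        hr hrN hZn hGam
      intro c hc
      obtain ⟨h1, h3, h4⟩ := hu c (hCZ c hc)
      obtain ⟨t, ht, htu⟩ := Nat.exists_prime_and_dvd h3.ne'
      have hZt := h4 t ht htu
      have h5 : t ∣ n - c := h1 ▸ htu.mul_left _
      have h6 : t ∣ d * H := hdH ▸ h5.trans (Finset.dvd_prod_of_mem _ hc)
      have h7 : t ∣ d := (ht.dvd_mul.1 h6).resolve_right fun h => by
        have := hHp t ht h; omega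
      obtain ⟨-, -, c', hc', h8⟩ := (hmemP t).1
        ((hdP t (Nat.mem_primeFactors.2 ⟨ht, h7, hd0⟩)).resolve_left (by omega))
      rwa [eq_of_dvd_sub (by omega) (hCZ c hc) (hGam c' hc') hZt h5 h8]
    have hone := heavy_le_one hCk hCs hCG
    have hiw : ∀ i < N, i / w < r := fun i hi => Nat.div_lt_of_lt_mul (by rwa [mul_comm])
    have h3 := hcardaux ((range N).filter fun i => 16 * r - 2 * (i / w) - 1 ∈ C) (by
      clear * - d Z C n E r w N q hdvdC hcover hCG Y n₀ r₁ hZn V t₂ t₁ k H hrN hZN hZ5 hCZ hq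
      intro p hp hZp
      obtain ⟨c, hc, h⟩ := hdvdC p hp
      rcases hcover c (hCG hc) p (Nat.prime_of_mem_primeFactors hp) hZp h with h' | ⟨i, hi, rfl⟩
      · exact Or.inl h'
      · refine Or.inr ⟨i, mem_filter.2 ⟨mem_range.2 hi, ?_⟩, rfl⟩
        rwa [eq_of_dvd_sub (by omega) (by omega) (hCZ c hc) hZp (hq i hi).2.2 h])
    obtain h4 : ((range N).filter fun i => 16 * r - 2 * (i / w) - 1 ∈ C).card ≤ (range w).card := by
      clear * - C r w N Y n₀ r₁ hr hrw n E V t₂ t₁ k H hiw hone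
      refine Finset.card_le_card_of_injOn (· % w) ?_ ?_
      · intro i _
        exact mem_coe.2 (mem_range.2 (Nat.mod_lt _ (by omega)))
      · intro i hi j hj hij
        simp only [coe_filter, mem_range, Set.mem_ofPred_eq] at hi hj hij
        have h5 := hiw i hi.1
        have h6 := hiw j hj.1
        have h7 := card_le_one.1 hone _ (mem_filter.2 ⟨hi.2, by omega⟩) _
          (mem_filter.2 ⟨hj.2, by omega⟩)
        have h8 : i / w = j / w := by omega
        rw [← Nat.div_add_mod i w, ← Nat.div_add_mod j w, h8, hij]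
    rw [card_range] at h4
    omega
  · refine ⟨(range N).image q, ?_, ?_⟩
    · intro p hp
      obtain ⟨i, hi, rfl⟩ := mem_image.1 (mem_coe.1 hp)
      rw [mem_range] at hi
      have hiw : i / w < r := Nat.div_lt_of_lt_mul (by rwa [mul_comm])
      obtain ⟨hq1, hq2, hq3⟩ := hq i hi
      generalize i / w = j at hiw hq3
      obtain ⟨V, hV, hd⟩ := exists_two_row (n := n) (k := 8 * r - j) (by clear * - r j n Y n₀ r₁ w hrN hZN q E hZ5 hZn i hiw; omega)
      have hd' := two_row_degree (u := u) (by omega) (by clear * - r j n Y n₀ r₁ w hrN hZN q E hZ5 hZn i hiw V hd hu; omega)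
        (fun c hc => (hu c (by clear * - c Z Y n₀ r₁ r w hrN hZN n q E i hi j V hc hd; omega)).1) hd
      have hh : 2 * (8 * r - j) - 1 = 16 * r - 2 * j - 1 := by clear * - r j Y n₀ r₁ w n q E u i hiw V; omega
      rw [hh] at hd'
      have hhG : 16 * r - 2 * j - 1 ∈ Gam r := mem_Gam.2 (Or.inr ⟨j, hiw, rfl⟩)
      obtain hd0 : Module.finrank ℂ V ≠ 0 := by
        intro h0
        rw [h0, zero_mul] at hd
        exact (Nat.mul_pos n.factorial_pos (Nat.succ_pos _)).ne hd
      obtain hin : ∀ p c, p.Prime → c ∈ Gam r → p ∣ u c → p ∈ π := by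
        clear * - r u n Z π hu hGam P hπ Y n₀ r₁ w hwN hZN q E hZ5 hEY i j V hle hZn hmemP hp
        intro p c hp hc h
        obtain ⟨h1, -, h4⟩ := hu c (hGam c hc)
        have h5 : p ∣ n - c := h1 ▸ h.mul_left _
        have h6 := h4 p hp h
        exact (hπ p (by omega) (hle p c (by have := hGam c hc; omega) h5)).2
          ((hmemP p).2 ⟨hp, h6, c, hc, h5⟩)
      refine ⟨Module.finrank ℂ V, ⟨⟨V, hV, rfl⟩, fun p hp => ?_⟩,
        Nat.mem_primeFactors.2 ⟨hq1, ?_, hd0⟩⟩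
      · obtain ⟨hp1, hp2, -⟩ := Nat.mem_primeFactors.1 hp
        rw [hd'] at hp2
        rcases hp1.dvd_mul.1 hp2 with h | h
        · rcases hp1.dvd_mul.1 h with h | h
          · rwa [(Nat.prime_dvd_prime_iff_eq hp1 Nat.prime_two).1 h]
          · obtain ⟨c, hc, h⟩ := (Prime.dvd_finsetProd_iff hp1.prime _).1 h
            exact hin p c hp1 (mem_Gam.2 (Or.inl (by have := mem_range.1 hc; omega))) h
        · exact hin p _ hp1 hhG h
      · rw [hd']
        refine Dvd.dvd.mul_left ?_ _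
        rw [(hu _ (hGam _ hhG)).1] at hq3
        refine (hq1.dvd_mul.1 hq3).resolve_left fun h => ?_
        have := Nat.le_of_dvd (Nat.succ_pos _) h
        clear * - Y n₀ r₁ r w hrN hZN n q E hZ5 u i hi hq2 j V hd' hd0 this; omega
    · rw [card_image_of_injective _ hmono.injective, card_range]

end Pool.Agent.Work.MP_d028d5_al
end

-- merged part: Pool.Agent.Work.MP_d028d5_al.Main
section
/-! Assembly of all stages into one set of primes. -/

namespace Pool.Agent.Work.MP_d028d5_al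

open Finset Filter CategoryTheory Pool.Agent.Lib.SymRep

theorem stage' (Y j : ℕ) :
    ∃ (n : ℕ) (P : Finset ℕ), Y < n ∧ (∀ p ∈ P, p.Prime ∧ Y < p ∧ p ≤ n) ∧
      ∀ π : Set ℕ, 2 ∈ π → (∀ p, Y < p → p ≤ n → (p ∈ π ↔ p ∈ P)) →
        ∃ (b : ℕ) (R : Finset ℕ), (∀ s ∈ primeCounts π (Equiv.Perm (Fin n)), s ≤ b) ∧
          (R : Set ℕ) ⊆ rho π (Equiv.Perm (Fin n)) ∧
          ((j : ℝ) + 1) * (b : ℝ) ^ (2 - 1 / ((j : ℝ) + 1)) < R.card := by
  obtain ⟨r₀, h⟩ := stage Y
  set i := 2 * j + 1 with hi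
  have hev : ∀ᶠ t : ℕ in atTop, (Y : ℝ) + 9 * (12 * (i * Real.log t) + 90) ≤ t := by
    have h1 : ∀ᶠ t : ℝ in atTop, ‖Real.log t‖ ≤ 1 / (216 * (i + 1)) * ‖id t‖ :=
      Real.isLittleO_log_id_atTop.def (by positivity)
    have h2 : ∀ᶠ t : ℝ in atTop, 2 * ((Y : ℝ) + 810) ≤ t := eventually_ge_atTop _
    filter_upwards [tendsto_natCast_atTop_atTop.eventually (h1.and h2)] with t ht
    obtain ⟨h3, h4⟩ := ht
    have h5 : 0 ≤ Real.log t := Real.log_natCast_nonneg t
    rw [Real.norm_of_nonneg h5, id, Real.norm_of_nonneg (Nat.cast_nonneg t), one_div,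
      inv_mul_eq_div, le_div_iff₀ (by positivity)] at h3
    linarith only [h3, h4, h5]
  obtain ⟨t, ht1, ht2⟩ := (hev.and (eventually_ge_atTop (r₀ + 4 * (j + 1) + 1))).exists
  have ht0 : 0 < t := by omega
  have htR : (0 : ℝ) < t := by exact_mod_cast ht0
  obtain ⟨n, P, h1, h2, h3⟩ := h (t ^ i) (t ^ (i + 1))
    (le_trans (by omega) (Nat.le_self_pow (by omega) t))
    (Nat.pow_le_pow_right ht0 (by omega))
    (by rw [← pow_mul]; exact Nat.pow_le_pow_right ht0 (by omega))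
    (by
      clear * - t i ht0 Y j ht1
      have e1 : (1 : ℝ) ≤ (t : ℝ) ^ i := one_le_pow₀ (by exact_mod_cast ht0)
      have e2 : (0 : ℝ) ≤ Y := Nat.cast_nonneg Y
      push_cast
      rw [Real.log_pow, pow_succ (t : ℝ) i]
      linarith only [ht1, e1, mul_le_mul_of_nonneg_left ht1 (zero_le_one.trans e1), mul_nonneg_of_nonpos_of_nonpos (Mathlib.Tactic.Linarith.sub_nonpos_of_le (Mathlib.Tactic.Linarith.natCast_nonneg ℝ Y)) (Mathlib.Tactic.Linarith.sub_nonpos_of_le e1)])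
  refine ⟨n, P, h1, h2, fun π h4 h5 => ?_⟩
  obtain ⟨h6, R, h7, h8⟩ := h3 π h4 h5
  refine ⟨_, R, h6, h7, lt_of_lt_of_le ?_ (Nat.cast_le.2 h8)⟩
  have hj : (0 : ℝ) < (j : ℝ) + 1 := by positivity
  have e1 : (((t ^ (i + 1) : ℕ) : ℝ)) ^ (2 - 1 / ((j : ℝ) + 1)) = (t : ℝ) ^ (2 * i) := by
    rw [Nat.cast_pow, ← Real.rpow_natCast, ← Real.rpow_mul htR.le, ← Real.rpow_natCast]
    congr 1
    rw [hi]
    push_cast
    field_simp
    ring
  have e2 : (2 : ℝ) ^ (2 - 1 / ((j : ℝ) + 1)) ≤ 4 := by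
    have : (2 : ℝ) ^ (2 - 1 / ((j : ℝ) + 1)) ≤ 2 ^ (2 : ℝ) :=
      Real.rpow_le_rpow_of_exponent_le (by norm_num) (by have := one_div_pos.2 hj; linarith only [this])
    norm_num at this ⊢
    exact this
  rw [Nat.cast_mul, Real.mul_rpow (by positivity) (by positivity), e1, Nat.cast_ofNat]
  have e3 : (4 : ℝ) * (j + 1) < t := by exact_mod_cast (by omega : 4 * (j + 1) < t)
  have e4 : (0 : ℝ) < (t : ℝ) ^ (2 * i) := by positivity
  push_cast
  calc ((j : ℝ) + 1) * (2 ^ (2 - 1 / ((j : ℝ) + 1)) * (t : ℝ) ^ (2 * i))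
      ≤ ((j : ℝ) + 1) * (4 * (t : ℝ) ^ (2 * i)) := by gcongr
    _ < t * (t : ℝ) ^ (2 * i) := by clear * - j t i e3 e4; linarith only [e3, e4, mul_pos_of_neg_of_neg (Mathlib.Tactic.Linarith.sub_neg_of_lt e3) (Mathlib.Tactic.Linarith.sub_neg_of_lt e4)]
    _ = (t : ℝ) ^ i * (t : ℝ) ^ (i + 1) := by ring

theorem rho_finite (π : Set ℕ) (n : ℕ) : (rho π (Equiv.Perm (Fin n))).Finite := by
  refine (n.factorial.primeFactors.finite_toSet).subset ?_
  rintro p ⟨_, ⟨⟨V, hV, rfl⟩, -⟩, hp⟩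
  obtain ⟨B, -, hB⟩ := simple_hook V
  exact Nat.primeFactors_mono (Dvd.intro _ hB) n.factorial_ne_zero hp

theorem main : ∃ π : Set ℕ, (∀ p ∈ π, p.Prime) ∧ ∀ ε : ℝ, 0 < ε → ∀ C : ℝ, ∃ n s : ℕ,
    IsGreatest (primeCounts π (Equiv.Perm (Fin n))) s ∧ (rho π (Equiv.Perm (Fin n))).Finite ∧
      C * (s : ℝ) ^ (2 - ε) < (rho π (Equiv.Perm (Fin n))).ncard := by
  choose nn PP h1 h2 h3 using stage'
  let Y : ℕ → ℕ := fun j => Nat.rec 2 (fun j y => nn y j) j
  have hY : ∀ j, Y (j + 1) = nn (Y j) j := fun _ => rfl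
  have hmono : StrictMono Y := strictMono_nat_of_lt_succ fun j => hY j ▸ h1 _ _
  let π : Set ℕ := {p | p = 2 ∨ ∃ j, p ∈ PP (Y j) j}
  refine ⟨π, ?_, fun ε hε C => ?_⟩
  · rintro p (rfl | ⟨j, hj⟩)
    · exact Nat.prime_two
    · exact (h2 _ _ p hj).1
  obtain ⟨j, hj⟩ := exists_nat_ge (max C (1 / ε))
  obtain ⟨b, R, h4, h5, h6⟩ := h3 (Y j) j π (Or.inl rfl) (by
    intro p hp1 hp2
    refine ⟨?_, fun h => Or.inr ⟨j, h⟩⟩
    rintro (rfl | ⟨i, hi⟩)
    · exact absurd (hmono.monotone (Nat.zero_le j)) (not_le.2 hp1)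
    · obtain ⟨-, h7, h8⟩ := h2 _ _ p hi
      rw [← hY] at hp2 h8
      have e1 : i < j + 1 := hmono.lt_iff_lt.1 (h7.trans_le hp2)
      have e2 : j < i + 1 := hmono.lt_iff_lt.1 (hp1.trans_le h8)
      obtain rfl : i = j := by omega
      exact hi)
  have hj0 : (0 : ℝ) < (j : ℝ) + 1 := by positivity
  have hRpos : 0 < R.card := by
    have : (0 : ℝ) < R.card := lt_of_le_of_lt (by positivity) h6
    exact_mod_cast this
  obtain ⟨p, hp⟩ := card_pos.1 hRpos
  obtain ⟨d, hd, hpd⟩ := h5 (mem_coe.2 hp)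
  have hbdd : BddAbove (primeCounts π (Equiv.Perm (Fin (nn (Y j) j)))) := ⟨b, h4⟩
  have hne : (primeCounts π (Equiv.Perm (Fin (nn (Y j) j)))).Nonempty :=
    ⟨d.primeFactors.card, d, hd, rfl⟩
  have hmem := Nat.sSup_mem hne hbdd
  have hge : d.primeFactors.card ≤ sSup (primeCounts π (Equiv.Perm (Fin (nn (Y j) j)))) :=
    le_csSup hbdd ⟨d, hd, rfl⟩
  refine ⟨nn (Y j) j, _, ⟨hmem, fun _ h => le_csSup hbdd h⟩, rho_finite _ _, ?_⟩
  have hsb := h4 _ hmem
  generalize sSup (primeCounts π (Equiv.Perm (Fin (nn (Y j) j)))) = s at hge hsb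
  have hs1 : (1 : ℝ) ≤ s := by
    have : 0 < d.primeFactors.card := card_pos.2 ⟨p, hpd⟩
    exact_mod_cast this.trans_le hge
  have hcard : (R.card : ℝ) ≤ (rho π (Equiv.Perm (Fin (nn (Y j) j)))).ncard := by
    have := Set.ncard_le_ncard h5 (rho_finite _ _)
    rw [Set.ncard_coe_finset] at this
    exact_mod_cast this
  have hη : 1 / ((j : ℝ) + 1) ≤ ε := by
    clear * - ε j C hj hj0 hε
    have e1 : 1 / ε ≤ j := (le_max_right _ _).trans hj
    rw [div_le_iff₀ hε] at e1
    rw [div_le_iff₀ hj0]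
    linarith only [hε, e1]
  have hη1 : 1 / ((j : ℝ) + 1) ≤ 1 := by
    rw [div_le_one hj0]
    linarith only [(Nat.cast_nonneg j : (0 : ℝ) ≤ j)]
  have e1 : (s : ℝ) ^ (2 - ε) ≤ (b : ℝ) ^ (2 - 1 / ((j : ℝ) + 1)) :=
    (Real.rpow_le_rpow_of_exponent_le hs1 (by linarith only [hη])).trans
      (Real.rpow_le_rpow (by linarith only [hs1]) (by exact_mod_cast hsb) (by linarith only [hη1]))
  have e2 : C ≤ (j : ℝ) + 1 := by linarith only [hj, (le_max_left _ _).trans hj]
  calc C * (s : ℝ) ^ (2 - ε) ≤ ((j : ℝ) + 1) * (s : ℝ) ^ (2 - ε) :=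
        mul_le_mul_of_nonneg_right e2 (by positivity)
    _ ≤ ((j : ℝ) + 1) * (b : ℝ) ^ (2 - 1 / ((j : ℝ) + 1)) := by gcongr
    _ < _ := h6.trans_le hcard

end Pool.Agent.Work.MP_d028d5_al
end
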